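import Pool.Agent.N167.Proj

/-!
# Detection on a subgroup of order three
-/

open CategoryTheory
open scoped LinearAlgebra.Projectivization

set_option autoImplicit false

namespace Pool.Agent.N167.ST

section functional

variable {G : Type} [Group G]

/-- The value of a cochain on the fundamental class modulo three of the subgroup generated by `τ`. -/
def ev (τ : G) (z : (Fin 4 → G) → ℤ) : ℤ :=
  (z ![1, τ, 1, τ] + z ![1, τ, τ, τ] + z ![1, τ, τ * τ, τ]) +
  (z ![τ, τ, 1, τ] + z ![τ, τ, τ, τ] + z ![τ, τ, τ * τ, τ]) +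
  (z ![τ * τ, τ, 1, τ] + z ![τ * τ, τ, τ, τ] + z ![τ * τ, τ, τ * τ, τ])

theorem ev_cob (τ : G) (hτ : τ * τ * τ = 1) (w : (Fin 3 → G) → ℤ) : 3 ∣ ev τ (cob 3 w) := by
  have hτ' : τ * (τ * τ) = 1 := by rw [← mul_assoc]; exact hτ
  unfold ev
  simp only [cob_three, one_mul, mul_one, hτ, hτ']
  refine ⟨w ![τ, 1, τ] + w ![τ, τ, τ] + w ![τ, τ * τ, τ], ?_⟩
  ring

theorem cls_ne_zero (τ : G) (hτ : τ * τ * τ = 1) (f : (Fin 4 → G) → ℤ) (h : cob 4 f = 0)
    (hev : ¬ 3 ∣ ev τ f) : cls f h ≠ 0 := by
  intro h1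
  have h0 : cob 4 (0 : (Fin 4 → G) → ℤ) = 0 := by
    unfold cob
    rw [map_zero]
  have h00 : cls (0 : (Fin 4 → G) → ℤ) h0 = 0 := by
    have := smul_cls (0 : ℤ) (0 : (Fin 4 → G) → ℤ) h0 (by rw [smul_zero]; exact h0)
    rw [zero_smul] at this
    rw [this]
    congr 1
  rw [← h00, cls_eq_iff, sub_zero] at h1
  obtain ⟨w, rfl⟩ := h1
  exact hev (ev_cob τ hτ w)

end functional

section orbits

/-- A sum over a set without fixed points which is stable under a map of order three. -/
theorem three_dvd_sum {P : Type} [DecidableEq P] (T : P → P) (hT : ∀ x, T (T (T x)) = x)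
    (f : P → ℤ) (hf : ∀ x, T x ≠ x → 3 ∣ f x + f (T x) + f (T (T x))) (S : Finset P)
    (hS : ∀ x ∈ S, T x ∈ S ∧ T x ≠ x) : 3 ∣ ∑ x ∈ S, f x := by
  induction S using Finset.strongInduction with
  | H S ih =>
    rcases S.eq_empty_or_nonempty with rfl | ⟨x, hx⟩
    · simp
    have h1 : T x ≠ x := (hS x hx).2
    have h2 : T (T x) ≠ T x := (hS _ (hS x hx).1).2
    have h3 : T (T x) ≠ x := by
      intro h
      apply h1
      conv_rhs => rw [← hT x, h]
    let O : Finset P := {x, T x, T (T x)}
    have hO : O ⊆ S := by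
      intro y hy
      simp only [O, Finset.mem_insert, Finset.mem_singleton] at hy
      rcases hy with rfl | rfl | rfl
      · exact hx
      · exact (hS _ hx).1
      · exact (hS _ (hS _ hx).1).1
    have hlt : S \ O ⊂ S := by
      refine Finset.ssubset_iff_subset_ne.2 ⟨Finset.sdiff_subset, fun h => ?_⟩
      have : x ∈ S \ O := by rw [h]; exact hx
      rw [Finset.mem_sdiff] at this
      exact this.2 (by simp [O])
    have hstab : ∀ y ∈ S \ O, T y ∈ S \ O ∧ T y ≠ y := by
      intro y hy
      rw [Finset.mem_sdiff] at hy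
      refine ⟨?_, (hS y hy.1).2⟩
      rw [Finset.mem_sdiff]
      refine ⟨(hS y hy.1).1, fun h => hy.2 ?_⟩
      simp only [O, Finset.mem_insert, Finset.mem_singleton] at h ⊢
      rcases h with h | h | h
      · right; right
        rw [← hT y, h]
      · left
        rw [← hT y, h, hT]
      · right; left
        rw [← hT y, h, hT]
    have h4 := ih _ hlt hstab
    rw [← Finset.sum_sdiff hO]
    have h5 : ∑ y ∈ O, f y = f x + f (T x) + f (T (T x)) := by
      rw [Finset.sum_insert, Finset.sum_insert, Finset.sum_singleton, add_assoc]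
      · simp only [Finset.mem_singleton]
        exact fun h => h2 h.symm
      · simp only [Finset.mem_insert, Finset.mem_singleton, not_or]
        exact ⟨fun h => h1 h.symm, fun h => h3 h.symm⟩
    rw [h5]
    exact dvd_add h4 (hf x h1)

end orbits

section local3

/-- the value of `c (τ, τ)` -/
def c1 (a b : ZMod 3) : ℤ := ((b.val : ℤ) + a.val - (b + a).val) / 3

/-- the value of `c (τ², τ)` -/
def c2 (a b d : ZMod 3) : ℤ := (((d + b).val : ℤ) + a.val) / 3

/-- the contribution of a point -/
def gf (a b d : ZMod 3) : ℤ :=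
  (c1 d a + c2 d a b) * c1 a b + (c1 a b + c2 a b d) * c2 a b d

theorem gf_orbit : ∀ a b d : ZMod 3, a + b + d = 0 →
    (3 : ℤ) ∣ gf a b d + gf b d a + gf d a b := by decide

theorem gf_fixed : ∀ a : ZMod 3, (3 : ℤ) ∣ gf a a a - (if a = 0 then 0 else 1) := by decide

variable {G P : Type} [Group G] [MulAction G P] [Fintype P] [DecidableEq P]

omit [DecidableEq P] in
theorem ev_cupSum (lam : G → P → ZMod 3) (hl : IsLam lam) (τ : G) (hτ : τ * τ * τ = 1) :
    ev τ (cupSum (chernOf lam) (chernOf lam)) =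
      ∑ x, gf (lam τ x) (lam τ (τ • x)) (lam τ (τ • τ • x)) := by
  have hτ' : τ * (τ * τ) = 1 := by rw [← mul_assoc]; exact hτ
  have h1 : ∀ y, lam 1 y = 0 := by
    intro y
    have := hl 1 1 y
    rw [one_smul, mul_one] at this
    simpa using this
  have h2 : ∀ y, lam (τ * τ) y = lam τ (τ • y) + lam τ y := fun y => hl τ τ y
  have e0 : ∀ y, chernOf lam 1 τ y = 0 := by
    intro y
    unfold chernOf
    rw [h1, one_mul]
    simp
  have e1 : ∀ y, chernOf lam τ τ y = c1 (lam τ y) (lam τ (τ • y)) := by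
    intro y
    unfold chernOf c1
    rw [h2]
    rfl
  have e2 : ∀ y, chernOf lam (τ * τ) τ y =
      c2 (lam τ y) (lam τ (τ • y)) (lam τ (τ • τ • y)) := by
    intro y
    unfold chernOf c2
    rw [hτ, h1, h2]
    simp
  have e3 : ∀ y : P, τ • τ • τ • y = y := by
    intro y
    rw [smul_smul, smul_smul, hτ, one_smul]
  unfold ev cupSum
  simp only [Matrix.cons_val]
  simp only [← Finset.sum_add_distrib]
  refine Finset.sum_congr rfl fun x _ => ?_
  simp only [e0, e1, e2, hτ, one_mul, one_smul, zero_mul, mul_zero, add_zero, zero_add]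
  simp only [mul_smul, e3]
  unfold gf
  ring

theorem ev_modEq (lam : G → P → ZMod 3) (hl : IsLam lam) (τ : G) (hτ : τ * τ * τ = 1) :
    (3 : ℤ) ∣ ev τ (cupSum (chernOf lam) (chernOf lam)) -
      (Finset.univ.filter fun x : P => τ • x = x ∧ lam τ x ≠ 0).card := by
  have hτ' : τ * (τ * τ) = 1 := by rw [← mul_assoc]; exact hτ
  have e3 : ∀ y : P, τ • τ • τ • y = y := by
    intro y
    rw [smul_smul, smul_smul, hτ, one_smul]
  have h1 : ∀ y, lam 1 y = 0 := by
    intro y
    have := hl 1 1 y
    rw [one_smul, mul_one] at this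
    simpa using this
  have hsum : ∀ y, lam τ y + lam τ (τ • y) + lam τ (τ • τ • y) = 0 := by
    intro y
    have e4 := hl τ (τ * τ) y
    have e5 := hl τ τ y
    rw [hτ', h1, mul_smul, e5] at e4
    rw [e4]
    ring
  rw [ev_cupSum lam hl τ hτ]
  set F : P → ℤ := fun x => gf (lam τ x) (lam τ (τ • x)) (lam τ (τ • τ • x)) with hF
  rw [← Finset.sum_filter_add_sum_filter_not Finset.univ (fun x : P => τ • x = x)]
  have h2 : (3 : ℤ) ∣ ∑ x ∈ Finset.univ.filter (fun x : P => ¬ τ • x = x), F x := by
    apply three_dvd_sum (fun x => τ • x) e3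
    · intro x _
      simp only [hF, e3]
      exact gf_orbit _ _ _ (hsum x)
    · intro x hx
      rw [Finset.mem_filter] at hx ⊢
      exact ⟨⟨Finset.mem_univ _, fun h => hx.2 (smul_left_cancel τ h)⟩, hx.2⟩
  have h3 : (3 : ℤ) ∣ ∑ x ∈ Finset.univ.filter (fun x : P => τ • x = x), F x -
      (Finset.univ.filter fun x : P => τ • x = x ∧ lam τ x ≠ 0).card := by
    rw [← Finset.filter_filter, Finset.card_filter, Nat.cast_sum, ← Finset.sum_sub_distrib]
    refine Finset.dvd_sum fun x hx => ?_
    rw [Finset.mem_filter] at hx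
    simp only [hF, hx.2]
    have := gf_fixed (lam τ x)
    by_cases h : lam τ x = 0
    · simpa [h] using this
    · simpa [h] using this
  obtain ⟨a, ha⟩ := h2
  obtain ⟨b, hb⟩ := h3
  exact ⟨a + b, by linarith⟩

end local3

section count

variable {K V : Type} [Field K] [AddCommGroup V] [Module K V] [Finite V]
  {G : Type} [Group G] [DistribMulAction G V] [SMulCommClass G K V]

theorem card_fixed (τ : G) (u : Kˣ) (F : Finset (ℙ K V))
    (hF : ∀ x, x ∈ F ↔ τ • x = x ∧ unitOf (repSec K V) τ x = u) :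
    Nat.card {v : V // τ • v = u • v} = 1 + (Nat.card K - 1) * F.card := by
  let E : Submodule K V :=
    { carrier := {v | τ • v = u • v}
      add_mem' := by
        intro a b ha hb
        simp only [Set.mem_ofPred_eq] at ha hb ⊢
        rw [smul_add, smul_add, ha, hb]
      zero_mem' := by simp
      smul_mem' := by
        intro c a ha
        simp only [Set.mem_ofPred_eq] at ha ⊢
        rw [smul_comm, ha, Units.smul_def, Units.smul_def, smul_comm] }
  have hE : ∀ v, v ∈ E ↔ τ • v = u • v := fun v => Iff.rfl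
  have h1 : Nat.card E - 1 = Nat.card (ℙ K E) * (Nat.card K - 1) := Projectivization.card K E
  have h2 : 0 < Nat.card E := Nat.card_pos
  let φ : ℙ K E → ℙ K V := Projectivization.map E.subtype (Submodule.injective_subtype E)
  have hφ : Function.Injective φ := Projectivization.map_injective _ _
  have hr : Set.range φ = {x | τ • x = x ∧ unitOf (repSec K V) τ x = u} := by
    ext x
    constructor
    · rintro ⟨y, rfl⟩
      induction y using Projectivization.ind with
      | h v hv =>
        have hv' : (v : V) ≠ 0 := fun h => hv (Subtype.ext h)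
        have e0 : φ (Projectivization.mk K v hv) = Projectivization.mk K (v : V) hv' := rfl
        rw [e0]
        have e1 : τ • Projectivization.mk K (v : V) hv' = Projectivization.mk K (v : V) hv' := by
          rw [Projectivization.smul_mk, Projectivization.mk_eq_mk_iff]
          exact ⟨u, ((hE v).1 v.2).symm⟩
        refine ⟨e1, ?_⟩
        obtain ⟨a, ha⟩ := Projectivization.exists_smul_eq_mk_rep K (v : V) hv'
        apply unit_ext ((repSec K V).ne (τ • Projectivization.mk K (v : V) hv'))
        rw [unitOf_spec, e1]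
        show τ • (Projectivization.mk K (v : V) hv').rep = u • (Projectivization.mk K (v : V) hv').rep
        rw [← ha, Units.smul_def, smul_comm, (hE v).1 v.2, Units.smul_def, Units.smul_def, smul_comm]
    · rintro ⟨e1, e2⟩
      have h3 := unitOf_spec (repSec K V) τ x
      rw [e1, e2] at h3
      have h4 : x.rep ∈ E := (hE _).2 h3.symm
      have h5 : (⟨x.rep, h4⟩ : E) ≠ 0 := fun h => x.rep_nonzero (congrArg Subtype.val h)
      refine ⟨Projectivization.mk K ⟨x.rep, h4⟩ h5, ?_⟩
      conv_rhs => rw [← x.mk_rep]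
      rfl
  have h6 : Nat.card (ℙ K E) = F.card := by
    have h8 : Set.range φ = (F : Set (ℙ K V)) := by
      rw [hr]
      ext x
      exact (hF x).symm
    rw [← Nat.card_range_of_injective hφ, h8]
    simp
  have h7 : Nat.card {v : V // τ • v = u • v} = Nat.card E := rfl
  rw [h7, ← h6, mul_comm, ← h1]
  omega

end count

section seven

instance : Fact (Nat.Prime 7) := ⟨by norm_num⟩

/-- The logarithm to the base three modulo three of a unit modulo seven. -/
def log7 (a : ZMod 7) : ZMod 3 := ![0, 0, 2, 1, 1, 2, 0] a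

theorem log7_mul : ∀ a b : ZMod 7, a ≠ 0 → b ≠ 0 → log7 (a * b) = log7 a + log7 b := by decide

/-- The character of order three of the group of units modulo seven. -/
def chi7 : (ZMod 7)ˣ →* Multiplicative (ZMod 3) where
  toFun u := Multiplicative.ofAdd (log7 u)
  map_one' := rfl
  map_mul' u v := by
    rw [Units.val_mul, log7_mul _ _ u.ne_zero v.ne_zero, ofAdd_add]

/-- the unit two modulo seven -/
def u2 : (ZMod 7)ˣ := ⟨2, 4, rfl, rfl⟩

/-- the unit four modulo seven -/
def u4 : (ZMod 7)ˣ := ⟨4, 2, rfl, rfl⟩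

theorem chi7_cases : ∀ a : ZMod 7, a * a * a = 1 → (log7 a ≠ 0 ↔ a = 2 ∨ a = 4) := by decide

theorem pow_seven (k n : ℕ) (h : 7 ^ k = 1 + 6 * n) (h3 : 3 ∣ n) : 3 ∣ k := by
  obtain ⟨m, rfl⟩ := h3
  have h1 : 7 ^ k % 18 = 1 := by omega
  have h2 : ∀ q r : ℕ, 7 ^ (3 * q + r) % 18 = 7 ^ r % 18 := by
    intro q r
    rw [pow_add, pow_mul, Nat.mul_mod, Nat.pow_mod]
    norm_num
  have h4 := Nat.div_add_mod k 3
  rw [← h4, h2] at h1
  have h5 : k % 3 < 3 := Nat.mod_lt _ (by norm_num)
  apply Nat.dvd_of_mod_eq_zero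
  interval_cases h6 : k % 3
  · rfl
  · norm_num at h1
  · norm_num at h1

variable {V : Type} [AddCommGroup V] [Module (ZMod 7) V] [Finite V]
  {G : Type} [Group G] [DistribMulAction G V] [SMulCommClass G (ZMod 7) V]

theorem pushSq_ne_zero (τ : G) (hτ : τ * τ * τ = 1) (k : ℕ)
    (h2 : Nat.card {v : V // τ • v = u2 • v} = 7 ^ k)
    (h4 : Nat.card {v : V // τ • v = u4 • v} = 7 ^ k) (hk : ¬ 3 ∣ k) :
    (projBundle (ZMod 7) V G chi7).pushSq ≠ 0 := by
  classical
  apply cls_ne_zero τ hτ
  have h := ev_modEq (P := ℙ (ZMod 7) V) (lamOf (G := G) chi7 (repSec (ZMod 7) V))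
    (isLam_lamOf chi7 (repSec (ZMod 7) V)) τ hτ
  intro h0
  have h1 : (3 : ℤ) ∣ ((Finset.univ.filter fun x : ℙ (ZMod 7) V =>
      τ • x = x ∧ lamOf (G := G) chi7 (repSec (ZMod 7) V) τ x ≠ 0).card : ℤ) := by
    have h0' : (3 : ℤ) ∣ ev τ (cupSum (chernOf (lamOf (G := G) chi7 (repSec (ZMod 7) V)))
      (chernOf (lamOf (G := G) chi7 (repSec (ZMod 7) V)))) := h0
    have := dvd_sub h0' h
    rwa [sub_sub_cancel] at this
  have h5 : (Finset.univ.filter fun x : ℙ (ZMod 7) V =>
      τ • x = x ∧ lamOf (G := G) chi7 (repSec (ZMod 7) V) τ x ≠ 0) =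
      (Finset.univ.filter fun x : ℙ (ZMod 7) V =>
        τ • x = x ∧ unitOf (repSec (ZMod 7) V) τ x = u2) ∪
      (Finset.univ.filter fun x : ℙ (ZMod 7) V =>
        τ • x = x ∧ unitOf (repSec (ZMod 7) V) τ x = u4) := by
    ext x
    simp only [Finset.mem_union, Finset.mem_filter, Finset.mem_univ, true_and]
    rw [← and_or_left]
    refine and_congr_right fun hx => ?_
    have h6 := unitOf_spec (repSec (ZMod 7) V) τ x
    rw [hx] at h6
    set u := unitOf (repSec (ZMod 7) V) τ x with hu
    have h7 : u * u * u = 1 := by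
      apply unit_ext ((repSec (ZMod 7) V).ne x)
      rw [one_smul]
      have h8 : ∀ (v : V), τ • u • v = u • τ • v := by
        intro v
        rw [Units.smul_def, Units.smul_def, smul_comm]
      have h9 : (τ * τ * τ) • (repSec (ZMod 7) V).s x = (u * u * u) • (repSec (ZMod 7) V).s x := by
        rw [mul_smul, mul_smul, ← h6, h8, ← h6, h8, h8, ← h6, mul_smul, mul_smul]
      rw [← h9, hτ, one_smul]
    have h8 : (u : ZMod 7) * u * u = 1 := by
      have := congrArg Units.val h7
      simpa using this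
    have h9 := chi7_cases _ h8
    have h10 : lamOf (G := G) chi7 (repSec (ZMod 7) V) τ x = log7 u := rfl
    rw [h10, h9]
    constructor
    · rintro (h | h)
      · left
        exact Units.ext h
      · right
        exact Units.ext h
    · rintro (h | h)
      · left
        rw [h]
        rfl
      · right
        rw [h]
        rfl
  rw [h5, Finset.card_union_of_disjoint] at h1
  swap
  · rw [Finset.disjoint_left]
    intro x hx hx'
    rw [Finset.mem_filter] at hx hx'
    have : u2 = u4 := hx.2.2.symm.trans hx'.2.2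
    have h := congrArg Units.val this
    revert h
    decide
  have e2 := card_fixed (K := ZMod 7) (V := V) τ u2 (Finset.univ.filter fun x : ℙ (ZMod 7) V =>
        τ • x = x ∧ unitOf (repSec (ZMod 7) V) τ x = u2) (by simp)
  have e4 := card_fixed (K := ZMod 7) (V := V) τ u4 (Finset.univ.filter fun x : ℙ (ZMod 7) V =>
        τ • x = x ∧ unitOf (repSec (ZMod 7) V) τ x = u4) (by simp)
  rw [h2, Nat.card_zmod] at e2
  rw [h4, Nat.card_zmod] at e4
  generalize (Finset.univ.filter fun x : ℙ (ZMod 7) V =>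
        τ • x = x ∧ unitOf (repSec (ZMod 7) V) τ x = u2).card = n2 at e2 h1
  generalize (Finset.univ.filter fun x : ℙ (ZMod 7) V =>
        τ • x = x ∧ unitOf (repSec (ZMod 7) V) τ x = u4).card = n4 at e4 h1
  norm_num at e2 e4
  have h11 : n2 = n4 := by omega
  have h12 : 3 ∣ n2 + n4 := by exact_mod_cast h1
  have h13 : 3 ∣ n2 := by omega
  exact hk (pow_seven k n2 e2 h13)

end seven

end Pool.Agent.N167.ST
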