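import Pool.Agent.N167.StableDef
import Pool.Agent.N167.Detect

/-!
# The action of the mapping class group on the cohomology modulo seven
-/

open CategoryTheory
open scoped LinearAlgebra.Projectivization commutatorElement

set_option autoImplicit false

namespace Pool.Agent.N167.ST

/-- The cohomology group `H¹(Σ_g; ℤ/7) = Hom(π_g, ℤ/7)`. -/
abbrev V (g : ℕ) : Type := Additive (SurfaceGroup g) →+ ZMod 7

/-- the value on a generator -/
def V.at' {g : ℕ} (α : V g) (x : Fin g × Bool) : ZMod 7 :=
  α (Additive.ofMul (gen g x))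

theorem V.ext_at {g : ℕ} {α β : V g} (h : ∀ x, α.at' x = β.at' x) : α = β := by
  have h1 : AddMonoidHom.toMultiplicativeRight α = AddMonoidHom.toMultiplicativeRight β := by
    apply hom_ext
    intro x
    exact congrArg Multiplicative.ofAdd (h x)
  exact (AddMonoidHom.toMultiplicativeRight).injective h1

theorem lift_relator {g : ℕ} {A : Type} [CommGroup A] (f : Fin g × Bool → A) :
    FreeGroup.lift f (relator g) = 1 := by
  unfold relator
  rw [map_list_prod, List.map_ofFn]
  apply List.prod_eq_one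
  intro x hx
  rw [List.mem_ofFn] at hx
  obtain ⟨i, rfl⟩ := hx
  simp only [Function.comp_apply, map_commutatorElement]
  exact commutatorElement_eq_one_iff_mul_comm.2 (mul_comm _ _)

/-- the class with given values on the generators -/
def V.mk' {g : ℕ} (f : Fin g × Bool → ZMod 7) : V g :=
  (AddMonoidHom.toMultiplicativeRight).symm
    (homOf (fun x => Multiplicative.ofAdd (f x)) (lift_relator _))

theorem V.at_mk {g : ℕ} (f : Fin g × Bool → ZMod 7) (x : Fin g × Bool) :
    (V.mk' f).at' x = f x := by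
  have h : homOf (fun x => Multiplicative.ofAdd (f x)) (lift_relator _) (gen g x) =
      Multiplicative.ofAdd (f x) := homOf_gen _ _ x
  exact congrArg Multiplicative.toAdd h

/-- coordinates -/
def coordV (g : ℕ) : V g ≃ₗ[ZMod 7] (Fin g × Bool → ZMod 7) where
  toFun α := α.at'
  invFun := V.mk'
  left_inv α := V.ext_at fun x => V.at_mk _ x
  right_inv f := funext fun x => V.at_mk f x
  map_add' _ _ := rfl
  map_smul' _ _ := rfl

instance (g : ℕ) : Finite (V g) := Finite.of_equiv _ (coordV g).symm.toEquiv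

/-- The action of automorphisms of `π_g` on `H¹(Σ_g; ℤ/7)`. -/
def repAut (g : ℕ) : MulAut (SurfaceGroup g) →* (V g ≃ₗ[ZMod 7] V g) where
  toFun φ :=
    { toFun := fun α => α.comp (MonoidHom.toAdditive (φ⁻¹).toMonoidHom)
      invFun := fun α => α.comp (MonoidHom.toAdditive φ.toMonoidHom)
      left_inv := fun α => by
        refine AddMonoidHom.ext fun x => ?_
        show α (Additive.ofMul (φ⁻¹ (φ x.toMul))) = α x
        rw [MulAut.inv_apply_self]
        rfl
      right_inv := fun α => by
        refine AddMonoidHom.ext fun x => ?_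
        show α (Additive.ofMul (φ (φ⁻¹ x.toMul))) = α x
        rw [MulAut.apply_inv_self]
        rfl
      map_add' := fun _ _ => rfl
      map_smul' := fun _ _ => rfl }
  map_one' := rfl
  map_mul' φ ψ := by
    apply LinearEquiv.ext
    intro α
    rw [LinearEquiv.mul_apply]
    show α.comp (MonoidHom.toAdditive ((φ * ψ)⁻¹).toMonoidHom) = _
    rw [mul_inv_rev]
    rfl

theorem repAut_apply (g : ℕ) (φ : MulAut (SurfaceGroup g)) (α : V g) (x : SurfaceGroup g) :
    repAut g φ α (Additive.ofMul x) = α (Additive.ofMul (φ⁻¹ x)) := rfl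

/-- The action of the mapping class group on `H¹(Σ_g; ℤ/7)`. -/
def rho (g : ℕ) : MCG g →* (V g ≃ₗ[ZMod 7] V g) :=
  QuotientGroup.lift (InnPlus g) ((repAut g).comp (AutPlus g).subtype) (by
    rintro ⟨φ, hφ⟩ h
    have h' : φ ∈ Inn (SurfaceGroup g) := Subgroup.mem_subgroupOf.1 h
    obtain ⟨y, hy⟩ := h'
    apply LinearEquiv.ext
    intro α
    show repAut g φ α = α
    refine AddMonoidHom.ext fun x => ?_
    have h1 := repAut_apply g φ α x.toMul
    have h2 : φ⁻¹ = MulAut.conj y⁻¹ := by
      rw [← hy, map_inv]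
    rw [h2] at h1
    refine h1.trans ?_
    rw [MulAut.conj_apply, ofMul_mul, ofMul_mul, map_add, map_add, inv_inv, ofMul_inv, map_neg]
    show _ + α x + _ = α x
    ring)

instance actMCG (g : ℕ) : DistribMulAction (MCG g) (V g) := DistribMulAction.compHom (V g) (rho g)

instance (g : ℕ) : SMulCommClass (MCG g) (ZMod 7) (V g) :=
  ⟨fun φ c α => (rho g φ).map_smul c α⟩

theorem smul_def (g : ℕ) (φ : MCG g) (α : V g) : φ • α = rho g φ α := rfl

/-- The covering of the moduli space `M_g` by the moduli space of the curves `C` together with a line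
in `H¹(C; ℤ/7)`, with the line bundle of order three given by the character `χ` of `(ℤ/7)ˣ`. -/
noncomputable def lineBundle (g : ℕ) : FlatBundle (MCG g) 3 :=
  projBundle (ZMod 7) (V g) (MCG g) chi7

section pull

variable {K W : Type} [Field K] [AddCommGroup W] [Module K W] [Finite W] {G G' : Type} [Group G]
  [Group G'] [DistribMulAction G W] [SMulCommClass G K W] [DistribMulAction G' W]
  [SMulCommClass G' K W] {N : ℕ} [NeZero N] (χ : Kˣ →* Multiplicative (ZMod N))

theorem pull_projBundle (f : G' →* G) (h : ∀ (g : G') (w : W), g • w = f g • w) :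
    pull f 4 (projBundle K W G χ).pushSq = (projBundle K W G' χ).pushSq := by
  have h1 : ∀ (g : G') (x : ℙ K W), f g • x = g • x := by
    intro g x
    induction x using Projectivization.ind with
    | h v hv =>
      rw [Projectivization.smul_mk, Projectivization.smul_mk]
      congr 1
      exact (h g v).symm
  have h2 : ∀ (g : G') (x : ℙ K W), lamOf χ (repSec K W) (f g) x = lamOf χ (repSec K W) g x := by
    intro g x
    unfold lamOf
    congr 2
    apply unit_ext ((repSec K W).ne (g • x))
    rw [unitOf_spec, ← h1 g x, unitOf_spec, h]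
  have h3 : ∀ (g g' : G') (x : ℙ K W), chernOf (lamOf χ (repSec K W)) (f g) (f g') x =
      chernOf (lamOf χ (repSec K W)) g g' x := by
    intro g g' x
    unfold chernOf
    rw [h2, h1, h2, ← map_mul, h2]
  have h4 : (fun v : Fin 4 → G' => (projBundle K W G χ).sq (f ∘ v)) =
      (projBundle K W G' χ).sq := by
    funext v
    have h5 : (projBundle K W G χ).sq (f ∘ v) = ∑ x : ℙ K W,
      chernOf (lamOf χ (repSec K W)) (f (v 0)) (f (v 1)) ((f (v 2) * f (v 3)) • x) *
        chernOf (lamOf χ (repSec K W)) (f (v 2)) (f (v 3)) x := rfl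
    have h6 : (projBundle K W G' χ).sq v = ∑ x : ℙ K W,
      chernOf (lamOf χ (repSec K W)) (v 0) (v 1) ((v 2 * v 3) • x) *
        chernOf (lamOf χ (repSec K W)) (v 2) (v 3) x := rfl
    rw [h5, h6]
    refine Finset.sum_congr rfl fun x _ => ?_
    rw [h3, h3, ← map_mul, h1]
  unfold FlatBundle.pushSq
  have h5 : cob 4 (fun v : Fin 4 → G' => (projBundle K W G χ).sq (f ∘ v)) = 0 := by
    rw [h4]
    exact FlatBundle.cob_sq _
  rw [pull_cls f _ _ h5]
  congr 1

end pull

/-! ### Stability -/

/-- the restriction to the last handle -/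
def lastV (g : ℕ) : V (g + 1) →ₗ[ZMod 7] (Bool → ZMod 7) where
  toFun α e := α.at' (Fin.last g, e)
  map_add' _ _ := rfl
  map_smul' _ _ := rfl

/-- the extension by zero on the last handle -/
def extV (g : ℕ) : V g →ₗ[ZMod 7] V (g + 1) where
  toFun α := V.mk' fun x =>
    Fin.lastCases (motive := fun _ => ZMod 7) 0 (fun j => α.at' (j, x.2)) x.1
  map_add' α β := by
    apply V.ext_at
    rintro ⟨i, e⟩
    show _ = (V.mk' _).at' _ + (V.mk' _).at' _
    rw [V.at_mk, V.at_mk, V.at_mk]
    refine Fin.lastCases ?_ (fun j => ?_) i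
    · simp
    · simp only [Fin.lastCases_castSucc]
      rfl
  map_smul' c α := by
    apply V.ext_at
    rintro ⟨i, e⟩
    show _ = c * (V.mk' _).at' _
    rw [V.at_mk, V.at_mk]
    refine Fin.lastCases ?_ (fun j => ?_) i
    · simp
    · simp only [Fin.lastCases_castSucc]
      rfl

theorem extV_last (g : ℕ) (α : V g) (e : Bool) : (extV g α).at' (Fin.last g, e) = 0 := by
  show (V.mk' _).at' _ = 0
  rw [V.at_mk]
  simp

theorem extV_castSucc (g : ℕ) (α : V g) (j : Fin g) (e : Bool) :
    (extV g α).at' (j.castSucc, e) = α.at' (j, e) := by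
  show (V.mk' _).at' _ = _
  rw [V.at_mk]
  simp

/-- the homomorphism of the free group given by a class -/
def V.free {g : ℕ} (α : V g) : FreeGroup (Fin g × Bool) →* Multiplicative (ZMod 7) :=
  (AddMonoidHom.toMultiplicativeRight α).comp (mkS g)

theorem V.free_of {g : ℕ} (α : V g) (x : Fin g × Bool) :
    α.free (FreeGroup.of x) = Multiplicative.ofAdd (α.at' x) := rfl

theorem extV_free (g : ℕ) (α : V g) (w : FreeGroup (Fin g × Bool)) :
    (extV g α).free (inc g w) = α.free w := by
  have h : ((extV g α).free).comp (inc g) = α.free := by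
    apply FreeGroup.ext_hom
    rintro ⟨j, e⟩
    show (extV g α).free (FreeGroup.of (j.castSucc, e)) = _
    rw [V.free_of, V.free_of, extV_castSucc]
  exact DFunLike.congr_fun h w

theorem rho_cap_free (g : ℕ) (φ : MCGb g) (α : V g) (w : FreeGroup (Fin g × Bool)) :
    (rho g (cap g φ) α).free w = α.free ((φ⁻¹).1 w) := rfl

/-- The covering and the line bundle are compatible with stabilisation. -/
theorem stable_aux (g : ℕ) : pull (cap g) 4 (lineBundle g).pushSq =
    pull ((cap (g + 1)).comp (stab g)) 4 (lineBundle (g + 1)).pushSq := by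
  let _ : DistribMulAction (MCGb g) (V g) := DistribMulAction.compHom (V g) (cap g)
  have _ : SMulCommClass (MCGb g) (ZMod 7) (V g) := ⟨fun φ c α => (rho g (cap g φ)).map_smul c α⟩
  let _ : DistribMulAction (MCGb g) (V (g + 1)) :=
    DistribMulAction.compHom (V (g + 1)) ((cap (g + 1)).comp (stab g))
  have _ : SMulCommClass (MCGb g) (ZMod 7) (V (g + 1)) :=
    ⟨fun φ c α => (rho (g + 1) (cap (g + 1) (stab g φ))).map_smul c α⟩
  have e1 : pull (cap g) 4 (lineBundle g).pushSq =
      (projBundle (ZMod 7) (V g) (MCGb g) chi7).pushSq :=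
    pull_projBundle chi7 (cap g) (fun _ _ => rfl)
  have e2 : pull ((cap (g + 1)).comp (stab g)) 4 (lineBundle (g + 1)).pushSq =
      (projBundle (ZMod 7) (V (g + 1)) (MCGb g) chi7).pushSq :=
    pull_projBundle chi7 ((cap (g + 1)).comp (stab g)) (fun _ _ => rfl)
  rw [e1, e2]
  symm
  have hs1 : ∀ (φ : MCGb g) (α : V g), φ • α = rho g (cap g φ) α := fun _ _ => rfl
  have hs2 : ∀ (φ : MCGb g) (α : V (g + 1)), φ • α = rho (g + 1) (cap (g + 1) (stab g φ)) α :=
    fun _ _ => rfl
  apply pushSq_eq_of_extension chi7 (extV g) ?_ ?_ (lastV g) ?_ ?_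
  · intro α β h
    apply V.ext_at
    rintro ⟨j, e⟩
    rw [← extV_castSucc, h, extV_castSucc]
  · intro φ α
    rw [hs1, hs2]
    apply V.ext_at
    rintro ⟨i, e⟩
    have key : ∀ w, (rho (g + 1) (cap (g + 1) (stab g φ)) (extV g α)).free w =
      (extV g α).free ((stab g φ)⁻¹.1 w) := fun w => rfl
    have h0 : (stab g φ)⁻¹ = stab g φ⁻¹ := (map_inv (stab g) φ).symm
    rw [h0] at key
    have h1 := key (FreeGroup.of (i, e))
    rw [V.free_of] at h1
    apply Multiplicative.ofAdd.injective
    rw [h1]
    refine Fin.lastCases ?_ (fun j => ?_) i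
    · rw [extV_last]
      have h2 : (stab g φ⁻¹).1 (FreeGroup.of (Fin.last g, e)) = FreeGroup.of (Fin.last g, e) :=
        extHom_last g _ e
      rw [h2, V.free_of, extV_last]
    · rw [extV_castSucc]
      have h2 : (stab g φ⁻¹).1 (FreeGroup.of (j.castSucc, e)) =
          inc g ((φ⁻¹).1 (FreeGroup.of (j, e))) :=
        extHom_inc g _ (FreeGroup.of (j, e))
      rw [h2, extV_free, ← rho_cap_free, V.free_of]
  · intro φ α
    rw [hs2]
    funext e
    have key : ∀ w, (rho (g + 1) (cap (g + 1) (stab g φ)) α).free w =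
      α.free ((stab g φ)⁻¹.1 w) := fun w => rfl
    have h0 : (stab g φ)⁻¹ = stab g φ⁻¹ := (map_inv (stab g) φ).symm
    rw [h0] at key
    have h1 := key (FreeGroup.of (Fin.last g, e))
    have h2 : (stab g φ⁻¹).1 (FreeGroup.of (Fin.last g, e)) = FreeGroup.of (Fin.last g, e) :=
      extHom_last g _ e
    rw [h2, V.free_of, V.free_of] at h1
    exact Multiplicative.ofAdd.injective h1
  · intro α hα
    refine ⟨V.mk' fun x => α.at' (x.1.castSucc, x.2), ?_⟩
    apply V.ext_at
    rintro ⟨i, e⟩
    refine Fin.lastCases ?_ (fun j => ?_) i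
    · rw [extV_last]
      exact (congrFun hα e).symm
    · rw [extV_castSucc, V.at_mk]

theorem pull_comp {G G' G'' : Type} [Group G] [Group G'] [Group G''] (f : G' →* G'') (f' : G →* G')
    (n : ℕ) (x : H G'' n) : pull (f.comp f') n x = pull f' n (pull f n x) := by
  rw [← ModuleCat.comp_apply]
  congr 2
  exact groupCohomology.map_comp (A := Rep.trivial ℤ G'' ℤ) (B := Rep.trivial ℤ G' ℤ)
    (C := Rep.trivial ℤ G ℤ) f f' (𝟙 (Rep.trivial ℤ G' ℤ)) (𝟙 (Rep.trivial ℤ G ℤ)) n

theorem stable : IsStable fun g => (lineBundle g).pushSq := by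
  intro g
  unfold pb
  rw [stable_aux, pull_comp]

end Pool.Agent.N167.ST
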