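import Pool.Agent.N167.CohDef

/-!
# Integral group cohomology in degree four by explicit cochains
-/

open CategoryTheory

set_option autoImplicit false

namespace Pool.Agent.N167.ST

section

variable {G G' : Type} [Group G] [Group G']

theorem cob_eq (n : ℕ) (f : (Fin n → G) → ℤ) :
    cob n f = inhomogeneousCochains.d (Rep.trivial ℤ G ℤ) n f := rfl

theorem cob_apply (n : ℕ) (f : (Fin n → G) → ℤ) (g : Fin (n + 1) → G) :
    cob n f g = f (fun i => g i.succ) + ∑ j : Fin (n + 1),
      (-1 : ℤ) ^ ((j : ℕ) + 1) * f (Fin.contractNth j (· * ·) g) := by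
  rw [cob_eq, inhomogeneousCochains.d_hom_apply]
  rfl

theorem cob_four (f : (Fin 4 → G) → ℤ) (a b c d e : G) :
    cob 4 f ![a, b, c, d, e] = f ![b, c, d, e] - f ![a * b, c, d, e] + f ![a, b * c, d, e]
      - f ![a, b, c * d, e] + f ![a, b, c, d * e] - f ![a, b, c, d] := by
  rw [cob_apply]
  have h0 : (fun i : Fin 4 => (![a, b, c, d, e] : Fin 5 → G) i.succ) = ![b, c, d, e] := by
    funext i; fin_cases i <;> rfl
  have h1 : Fin.contractNth 0 (· * ·) (![a, b, c, d, e] : Fin 5 → G) = ![a * b, c, d, e] := by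
    funext i; fin_cases i <;> rfl
  have h2 : Fin.contractNth 1 (· * ·) (![a, b, c, d, e] : Fin 5 → G) = ![a, b * c, d, e] := by
    funext i; fin_cases i <;> rfl
  have h3 : Fin.contractNth 2 (· * ·) (![a, b, c, d, e] : Fin 5 → G) = ![a, b, c * d, e] := by
    funext i; fin_cases i <;> rfl
  have h4 : Fin.contractNth 3 (· * ·) (![a, b, c, d, e] : Fin 5 → G) = ![a, b, c, d * e] := by
    funext i; fin_cases i <;> rfl
  have h5 : Fin.contractNth 4 (· * ·) (![a, b, c, d, e] : Fin 5 → G) = ![a, b, c, d] := by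
    funext i; fin_cases i <;> rfl
  rw [h0]
  simp only [Fin.sum_univ_succ, Fin.sum_univ_zero]
  simp only [show (Fin.succ 0 : Fin 5) = 1 from rfl, show (Fin.succ (Fin.succ 0) : Fin 5) = 2 from rfl,
    show (Fin.succ (Fin.succ (Fin.succ 0)) : Fin 5) = 3 from rfl,
    show (Fin.succ (Fin.succ (Fin.succ (Fin.succ 0))) : Fin 5) = 4 from rfl, h1, h2, h3, h4, h5]
  norm_num
  ring

theorem cob_three (f : (Fin 3 → G) → ℤ) (a b c d : G) :
    cob 3 f ![a, b, c, d] = f ![b, c, d] - f ![a * b, c, d] + f ![a, b * c, d]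
      - f ![a, b, c * d] + f ![a, b, c] := by
  rw [cob_apply]
  have h0 : (fun i : Fin 3 => (![a, b, c, d] : Fin 4 → G) i.succ) = ![b, c, d] := by
    funext i; fin_cases i <;> rfl
  have h1 : Fin.contractNth 0 (· * ·) (![a, b, c, d] : Fin 4 → G) = ![a * b, c, d] := by
    funext i; fin_cases i <;> rfl
  have h2 : Fin.contractNth 1 (· * ·) (![a, b, c, d] : Fin 4 → G) = ![a, b * c, d] := by
    funext i; fin_cases i <;> rfl
  have h3 : Fin.contractNth 2 (· * ·) (![a, b, c, d] : Fin 4 → G) = ![a, b, c * d] := by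
    funext i; fin_cases i <;> rfl
  have h4 : Fin.contractNth 3 (· * ·) (![a, b, c, d] : Fin 4 → G) = ![a, b, c] := by
    funext i; fin_cases i <;> rfl
  rw [h0]
  simp only [Fin.sum_univ_succ, Fin.sum_univ_zero]
  simp only [show (Fin.succ 0 : Fin 4) = 1 from rfl, show (Fin.succ (Fin.succ 0) : Fin 4) = 2 from rfl,
    show (Fin.succ (Fin.succ (Fin.succ 0)) : Fin 4) = 3 from rfl, h1, h2, h3, h4]
  norm_num
  ring

omit [Group G] in
theorem vec_four (v : Fin 4 → G) : v = ![v 0, v 1, v 2, v 3] := by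
  funext i; fin_cases i <;> rfl

omit [Group G] in
theorem vec_five (v : Fin 5 → G) : v = ![v 0, v 1, v 2, v 3, v 4] := by
  funext i; fin_cases i <;> rfl

/-- Cocycles which differ by a coboundary have the same class, and conversely. -/
theorem cls_eq_iff (f f' : (Fin 4 → G) → ℤ) (h : cob 4 f = 0) (h' : cob 4 f' = 0) :
    cls f h = cls f' h' ↔ ∃ w : (Fin 3 → G) → ℤ, f - f' = cob 3 w := by
  let K := groupCohomology.inhomogeneousCochains (Rep.trivial ℤ G ℤ)
  have hex : (ShortComplex.mk (K.toCycles 3 4) (K.homologyπ 4)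
      (K.toCycles_comp_homologyπ 3 4)).Exact :=
    ShortComplex.exact_of_g_is_cokernel _ (K.homologyIsCokernel 3 4 (by simp))
  rw [ShortComplex.moduleCat_exact_iff] at hex
  have hinj : Function.Injective (K.iCycles 4) := by
    rw [← ModuleCat.mono_iff_injective]
    infer_instance
  have hd : ∀ w : (Fin 3 → G) → ℤ, (K.iCycles 4) ((K.toCycles 3 4) w) = cob 3 w := by
    intro w
    rw [← ModuleCat.comp_apply, K.toCycles_i, groupCohomology.inhomogeneousCochains.d_def]
    rfl
  have h3 := groupCohomology.iCocycles_mk (A := Rep.trivial ℤ G ℤ) f h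
  have h4 := groupCohomology.iCocycles_mk (A := Rep.trivial ℤ G ℤ) f' h'
  constructor
  · intro hc
    have h1 : (K.homologyπ 4) (groupCohomology.cocyclesMk (A := Rep.trivial ℤ G ℤ) f h -
        groupCohomology.cocyclesMk (A := Rep.trivial ℤ G ℤ) f' h') = 0 := by
      rw [map_sub]
      exact sub_eq_zero.2 hc
    obtain ⟨w, hw⟩ := hex _ h1
    refine ⟨w, ?_⟩
    have h2 := congrArg (K.iCycles 4) hw
    rw [map_sub] at h2
    rw [← hd w]
    refine Eq.trans ?_ h2.symm
    exact congrArg₂ (· - ·) h3.symm h4.symm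
  · rintro ⟨w, hw⟩
    have h5 : groupCohomology.cocyclesMk (A := Rep.trivial ℤ G ℤ) f h -
        groupCohomology.cocyclesMk (A := Rep.trivial ℤ G ℤ) f' h' = (K.toCycles 3 4) w := by
      apply hinj
      rw [hd w, map_sub, ← hw]
      exact congrArg₂ (· - ·) h3 h4
    have h6 := congrArg (K.homologyπ 4) h5
    rw [map_sub, ← ModuleCat.comp_apply, K.toCycles_comp_homologyπ] at h6
    exact sub_eq_zero.1 h6

theorem pull_cls (φ : G →* G') (f : (Fin 4 → G') → ℤ) (h : cob 4 f = 0)
    (h' : cob 4 (fun v : Fin 4 → G => f (φ ∘ v)) = 0) :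
    pull φ 4 (cls f h) = cls (fun v => f (φ ∘ v)) h' := by
  unfold cls
  have := groupCohomology.π_map (A := Rep.trivial ℤ G' ℤ) (B := Rep.trivial ℤ G ℤ) φ
    (𝟙 (Rep.trivial ℤ G ℤ)) 4
  rw [← ModuleCat.comp_apply, this, ModuleCat.comp_apply]
  congr 1
  let K := groupCohomology.inhomogeneousCochains (Rep.trivial ℤ G ℤ)
  have hinj : Function.Injective (K.iCycles 4) := by
    rw [← ModuleCat.mono_iff_injective]
    infer_instance
  apply hinj
  have h3 := groupCohomology.iCocycles_mk (A := Rep.trivial ℤ G ℤ) _ h'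
  refine Eq.trans ?_ h3.symm
  rw [← ModuleCat.comp_apply, HomologicalComplex.cyclesMap_i, ModuleCat.comp_apply]
  have h4 := groupCohomology.iCocycles_mk (A := Rep.trivial ℤ G' ℤ) _ h
  exact congrArg (fun t => (groupCohomology.cochainsMap (A := Rep.trivial ℤ G' ℤ)
    (B := Rep.trivial ℤ G ℤ) φ (𝟙 (Rep.trivial ℤ G ℤ))).f 4 t) h4

theorem smul_cls (n : ℤ) (f : (Fin 4 → G) → ℤ) (h : cob 4 f = 0)
    (h' : cob 4 (n • f) = 0) :
    n • cls f h = cls (n • f) h' := by
  unfold cls
  rw [← map_zsmul]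
  congr 1
  let K := groupCohomology.inhomogeneousCochains (Rep.trivial ℤ G ℤ)
  have hinj : Function.Injective (K.iCycles 4) := by
    rw [← ModuleCat.mono_iff_injective]
    infer_instance
  apply hinj
  have h3 := groupCohomology.iCocycles_mk (A := Rep.trivial ℤ G ℤ) _ h'
  refine Eq.trans ?_ h3.symm
  rw [map_zsmul]
  have h4 := groupCohomology.iCocycles_mk (A := Rep.trivial ℤ G ℤ) _ h
  exact congrArg (fun t => n • t) h4

end

end Pool.Agent.N167.ST
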