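import Mathlib

/-!
# Integral group cohomology in degree four: definitions
-/

open CategoryTheory

set_option autoImplicit false

namespace Pool.Agent.N167.ST

/-- The integral cohomology `Hⁿ(G; ℤ)` of the group `G`. -/
noncomputable abbrev H (G : Type) [Group G] (n : ℕ) : ModuleCat ℤ :=
  groupCohomology (Rep.trivial ℤ G ℤ) n

/-- The map `f^* : Hⁿ(G'; ℤ) → Hⁿ(G; ℤ)` induced by a homomorphism `f : G → G'`. -/
noncomputable abbrev pull {G G' : Type} [Group G] [Group G'] (f : G →* G') (n : ℕ) :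
    H G' n ⟶ H G n :=
  groupCohomology.map (A := Rep.trivial ℤ G' ℤ) (B := Rep.trivial ℤ G ℤ) f
    (𝟙 (Rep.trivial ℤ G ℤ)) n

/-- The pull-back `f^* x ∈ H⁴(G; ℤ)` of a class `x ∈ H⁴(G'; ℤ)` under `f : G → G'`. -/
noncomputable def pb {G G' : Type} [Group G] [Group G'] (f : G →* G') (x : H G' 4) : H G 4 :=
  pull f 4 x

section

variable {G : Type} [Group G]

variable (G) in
/-- The differential of the complex of inhomogeneous cochains. -/
noncomputable def dL (n : ℕ) : ((Fin n → G) → ℤ) →ₗ[ℤ] ((Fin (n + 1) → G) → ℤ) :=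
  (inhomogeneousCochains.d (Rep.trivial ℤ G ℤ) n).hom

/-- The coboundary of the inhomogeneous cochain `f`. -/
noncomputable def cob (n : ℕ) (f : (Fin n → G) → ℤ) : (Fin (n + 1) → G) → ℤ := dL G n f

/-- The class of a cocycle of degree four. -/
noncomputable def cls (f : (Fin 4 → G) → ℤ) (h : cob 4 f = 0) : H G 4 :=
  groupCohomology.π (Rep.trivial ℤ G ℤ) 4 (groupCohomology.cocyclesMk (A := Rep.trivial ℤ G ℤ) f h)

end

end Pool.Agent.N167.ST
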