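import Mathlib

/-!
# The dyadic model of the Navier–Stokes equations on the `M`-ary tree

The nodes of the tree are the lists `j : List (Fin M)`, the root is `[]`, the children of `j` are
`k :: j` for `k : Fin M`, the generation of `j` is `j.length`. With `i` the parent of `j` the
equations are

`X_j' = f_j - ν D^|j| X_j + B^|i| X_i^2 - B^|j| X_j ∑_k X_{k::j}`

(the third term is absent for the root). `M = 1`, `D = lam^2`, `B = lam^β` is the chain of
Desnyansky–Novikov, Katz–Pavlović and Cheskidov,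
`X_n' = f_n - ν lam^{2n} X_n + lam^{β(n-1)} X_{n-1}^2 - lam^{βn} X_n X_{n+1}`.
-/

namespace Pool.Agent.N167.Dyadic

open Set

variable {M : ℕ}

/-- The flux `B^|i| X_i^2` which the node `j` receives from its parent `i` (zero for the root). -/
noncomputable def inflow (B : ℝ) (X : List (Fin M) → ℝ) : List (Fin M) → ℝ
  | [] => 0
  | _ :: i => B ^ i.length * X i ^ 2

/-- `X` solves the equations of all nodes for all times `t ≥ 0` (derivative at `0` from the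
right), with force `f` and initial datum `x`. -/
def IsSol (B D ν : ℝ) (f : List (Fin M) → ℝ → ℝ) (x : List (Fin M) → ℝ)
    (X : List (Fin M) → ℝ → ℝ) : Prop :=
  (∀ j, X j 0 = x j) ∧
  ∀ j, ∀ t, 0 ≤ t → HasDerivWithinAt (X j)
    (f j t - ν * D ^ j.length * X j t + inflow B (fun i => X i t) j
      - B ^ j.length * X j t * ∑ k : Fin M, X (k :: j) t) (Ici 0) t

/-- Leray–Hopf solutions: solutions of locally bounded energy `∑ Z_j(t)²` satisfying the energy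
inequality `∑ Z_j(t)² + 2ν ∑ D^|j| ∫₀ᵗ Z_j² ≤ ∑ x_j² + 2 ∫₀ᵗ ∑ f_j Z_j` for all `t ≥ 0` (the
infinite sums on the left are expressed by arbitrary finite partial sums). -/
def LerayHopf (B D ν : ℝ) (f : List (Fin M) → ℝ → ℝ) (x : List (Fin M) → ℝ)
    (Z : List (Fin M) → ℝ → ℝ) : Prop :=
  IsSol B D ν f x Z ∧
  (∀ T : ℝ, ∃ E : ℝ, ∀ t ∈ Icc (0 : ℝ) T, ∀ s : Finset (List (Fin M)), ∑ j ∈ s, Z j t ^ 2 ≤ E) ∧
  ∀ t : ℝ, 0 ≤ t → ∀ s : Finset (List (Fin M)),
    ∑ j ∈ s, (Z j t ^ 2 + 2 * ν * D ^ j.length * ∫ τ in (0 : ℝ)..t, Z j τ ^ 2) ≤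
      ∑' j, x j ^ 2 + 2 * ∫ τ in (0 : ℝ)..t, ∑' j, f j τ * Z j τ

/-- Rapidly decreasing sequence: `sup_n s^n a_n < ∞` for every real `s > 0`. -/
def Rapid (a : ℕ → ℝ) : Prop := ∀ s : ℝ, 0 < s → ∃ C : ℝ, ∀ n : ℕ, s ^ n * a n ≤ C

/-- `X` is smooth, uniformly for the times in `S`: `|X_j(t)| ≤ a_|j|`, `a` rapidly decreasing. -/
def SmoothOn (S : Set ℝ) (X : List (Fin M) → ℝ → ℝ) : Prop :=
  ∃ a : ℕ → ℝ, Rapid a ∧ ∀ j, ∀ t ∈ S, |X j t| ≤ a j.length

/-- Global regularity. For every smooth datum `x` and every smooth force `f` (continuous in time,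
smooth uniformly for `t ≥ 0`), of arbitrary signs, there is a solution `X` which is smooth
uniformly for `t ≥ 0` and which is the only Leray–Hopf solution. If `x` and `f` are nonnegative
then `X` is nonnegative and the only solution. -/
def GlobalRegularity (M : ℕ) (B D ν : ℝ) : Prop :=
  ∀ (x : List (Fin M) → ℝ) (f : List (Fin M) → ℝ → ℝ),
    (∃ y : ℕ → ℝ, Rapid y ∧ ∀ j, |x j| ≤ y j.length) →
    (∀ j, ContinuousOn (f j) (Ici 0)) → SmoothOn (Ici 0) f →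
    ∃ X : List (Fin M) → ℝ → ℝ, SmoothOn (Ici 0) X ∧ LerayHopf B D ν f x X ∧
      (∀ Z : List (Fin M) → ℝ → ℝ, LerayHopf B D ν f x Z → ∀ j, ∀ t, 0 ≤ t → Z j t = X j t) ∧
      ((∀ j, 0 ≤ x j) → (∀ j, ∀ t, 0 ≤ t → 0 ≤ f j t) → (∀ j, ∀ t, 0 ≤ t → 0 ≤ X j t) ∧
        ∀ Z : List (Fin M) → ℝ → ℝ, IsSol B D ν f x Z → ∀ j, ∀ t, 0 ≤ t → Z j t = X j t)

/-- Blow-up, no force: there is `R` such that for no nonnegative datum `x` with `x_[] ≥ R` there
is a solution which is smooth on every interval `[0, T]`. -/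
def BlowUp (M : ℕ) (B D ν : ℝ) : Prop :=
  ∃ R : ℝ, ∀ x : List (Fin M) → ℝ, (∀ j, 0 ≤ x j) → R ≤ x [] →
    ¬ ∃ X : List (Fin M) → ℝ → ℝ, IsSol B D ν (fun _ _ => 0) x X ∧
      ∀ T : ℝ, SmoothOn (Icc 0 T) X

end Pool.Agent.N167.Dyadic
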