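import Pool.Agent.N167.SurfDef

/-!
# Extension of endomorphisms to the next free group: definitions
-/

set_option autoImplicit false

namespace Pool.Agent.N167.ST

/-- The inclusion of the free group on the letters of the first `g` handles. -/
def inc (g : ℕ) : FreeGroup (Fin g × Bool) →* FreeGroup (Fin (g + 1) × Bool) :=
  FreeGroup.map fun x => (x.1.castSucc, x.2)

/-- The values of the extension on the letters: a letter of the first `g` handles is mapped to its
image under `φ`, the letters of the last handle are fixed. -/
def extGen (g : ℕ) (φ : FreeGroup (Fin g × Bool) →* FreeGroup (Fin g × Bool)) (e : Bool)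
    (i : Fin (g + 1)) : FreeGroup (Fin (g + 1) × Bool) :=
  Fin.lastCases (motive := fun _ => FreeGroup (Fin (g + 1) × Bool))
    (FreeGroup.of (Fin.last g, e)) (fun j => inc g (φ (FreeGroup.of (j, e)))) i

/-- The extension of an endomorphism by the identity on the letters of the last handle. -/
def extHom (g : ℕ) (φ : FreeGroup (Fin g × Bool) →* FreeGroup (Fin g × Bool)) :
    FreeGroup (Fin (g + 1) × Bool) →* FreeGroup (Fin (g + 1) × Bool) :=
  FreeGroup.lift fun x => extGen g φ x.2 x.1

end Pool.Agent.N167.ST
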