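import Pool.Agent.N167.ExtDef

/-!
# Extension of endomorphisms to the next free group: lemmas
-/

set_option autoImplicit false

open scoped commutatorElement

namespace Pool.Agent.N167.ST

theorem extHom_inc (g : ℕ) (φ : FreeGroup (Fin g × Bool) →* FreeGroup (Fin g × Bool))
    (w : FreeGroup (Fin g × Bool)) : extHom g φ (inc g w) = inc g (φ w) := by
  have h : (extHom g φ).comp (inc g) = (inc g).comp φ := by
    ext x
    simp [extHom, extGen, inc, FreeGroup.map.of]
  exact DFunLike.congr_fun h w

theorem extHom_last (g : ℕ) (φ : FreeGroup (Fin g × Bool) →* FreeGroup (Fin g × Bool)) (e : Bool) :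
    extHom g φ (FreeGroup.of (Fin.last g, e)) = FreeGroup.of (Fin.last g, e) := by
  simp [extHom, extGen]

theorem extHom_comp (g : ℕ) (φ ψ : FreeGroup (Fin g × Bool) →* FreeGroup (Fin g × Bool))
    (w : FreeGroup (Fin (g + 1) × Bool)) : extHom g φ (extHom g ψ w) = extHom g (φ.comp ψ) w := by
  have h : (extHom g φ).comp (extHom g ψ) = extHom g (φ.comp ψ) := by
    apply FreeGroup.ext_hom
    rintro ⟨i, e⟩
    refine Fin.lastCases ?_ (fun j => ?_) i
    · rw [MonoidHom.comp_apply, extHom_last, extHom_last, extHom_last]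
    · have h1 : FreeGroup.of (j.castSucc, e) = inc g (FreeGroup.of (j, e)) := rfl
      rw [MonoidHom.comp_apply, h1, extHom_inc, extHom_inc, extHom_inc]
      rfl
  exact DFunLike.congr_fun h w

theorem extHom_id (g : ℕ) (w : FreeGroup (Fin (g + 1) × Bool)) :
    extHom g (MonoidHom.id _) w = w := by
  have h : extHom g (MonoidHom.id _) = MonoidHom.id _ := by
    apply FreeGroup.ext_hom
    rintro ⟨i, e⟩
    refine Fin.lastCases ?_ (fun j => ?_) i
    · rw [extHom_last]
      rfl
    · have h1 : FreeGroup.of (j.castSucc, e) = inc g (FreeGroup.of (j, e)) := rfl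
      rw [h1, extHom_inc]
      rfl
  exact DFunLike.congr_fun h w

theorem relator_succ (g : ℕ) : relator (g + 1) =
    inc g (relator g) * ⁅FreeGroup.of (Fin.last g, false), FreeGroup.of (Fin.last g, true)⁆ := by
  unfold relator
  rw [List.ofFn_succ', List.prod_concat, map_list_prod, List.map_ofFn]
  congr 3

end Pool.Agent.N167.ST
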