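import Pool.Agent.N167.PushDef

/-!
# Flat line bundles of finite order on finite coverings and the push-forward of `c₁²`
-/

open CategoryTheory

set_option autoImplicit false

namespace Pool.Agent.N167.ST

namespace FlatBundle

variable {G G' : Type} [Group G] [Group G'] {N : ℕ} [NeZero N]

/-- The pull-back of a covering with a flat line bundle. -/
def comap (B : FlatBundle G N) (f : G' →* G) : FlatBundle G' N where
  P := B.P
  act := MulAction.compHom B.P f
  lam g x := B.lam (f g) x
  lam_mul g h x := by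
    rw [map_mul, B.lam_mul]
    rfl

omit [NeZero N] in
theorem comap_sq (B : FlatBundle G N) (f : G' →* G) (v : Fin 4 → G') :
    (B.comap f).sq v = B.sq (f ∘ v) := by
  let _ : MulAction G' B.P := MulAction.compHom B.P f
  have h2 : ∀ (g h : G') (x : B.P), chernOf (fun (g : G') (x : B.P) => B.lam (f g) x) g h x =
      chernOf B.lam (f g) (f h) x := by
    intro g h x
    unfold chernOf
    simp only [map_mul]
    rfl
  have h3 : f (v 2 * v 3) = f (v 2) * f (v 3) := map_mul _ _ _
  have h4 : (B.comap f).sq v = ∑ x : B.P, chernOf (fun (g : G') (x : B.P) => B.lam (f g) x)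
    (v 0) (v 1) (f (v 2 * v 3) • x) *
      chernOf (fun (g : G') (x : B.P) => B.lam (f g) x) (v 2) (v 3) x := rfl
  rw [h4]
  unfold sq cupSum
  refine Finset.sum_congr rfl fun x _ => ?_
  rw [h2, h2, h3]
  rfl

theorem pull_pushSq (B : FlatBundle G N) (f : G' →* G) :
    pull f 4 B.pushSq = (B.comap f).pushSq := by
  have h : (fun v : Fin 4 → G' => B.sq (f ∘ v)) = (B.comap f).sq := by
    funext v
    rw [comap_sq]
  unfold pushSq
  have h' : cob 4 (fun v : Fin 4 → G' => B.sq (f ∘ v)) = 0 := by
    rw [h]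
    exact cob_sq _
  rw [pull_cls f B.sq B.cob_sq h']
  congr 1

theorem torsion (B : FlatBundle G N) : (N : ℤ) • B.pushSq = 0 := by
  have h := cupSum_torsion (N : ℤ) (chernOf B.lam) (isCoc_chernOf _ B.lam_mul)
    (fun g x => ((B.lam g x).val : ℤ)) (fun g h x => by
      rw [mul_chernOf _ B.lam_mul]
      ring)
  have h' : cob 4 ((N : ℤ) • B.sq) = 0 := by
    unfold cob
    rw [map_zsmul]
    have := B.cob_sq
    unfold cob at this
    rw [this, smul_zero]
  unfold pushSq
  rw [smul_cls (N : ℤ) B.sq B.cob_sq h']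
  have h0 : cob 4 (0 : (Fin 4 → G) → ℤ) = 0 := by
    unfold cob
    rw [map_zero]
  have h00 : cls (0 : (Fin 4 → G) → ℤ) h0 = 0 := by
    have := smul_cls (0 : ℤ) (0 : (Fin 4 → G) → ℤ) h0 (by rw [smul_zero]; exact h0)
    rw [zero_smul] at this
    rw [this]
    congr 1
  rw [← h00, cls_eq_iff, sub_zero]
  exact ⟨_, h⟩

end FlatBundle

end Pool.Agent.N167.ST
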