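import Pool.Agent.N167.CohDef

/-!
# Flat line bundles of finite order on finite coverings: definitions
-/

set_option autoImplicit false

namespace Pool.Agent.N167.ST

section

variable {G P : Type} [Group G] [MulAction G P]

/-- Cocycles of degree two of `G` with values in the functions on `P`. -/
def IsCoc (c : G → G → P → ℤ) : Prop :=
  ∀ g h k x, c h k x - c (g * h) k x + c g (h * k) x - c g h (k • x) = 0

/-- The sum over `P` of the cup square. -/
def cupSum [Fintype P] (c c' : G → G → P → ℤ) (v : Fin 4 → G) : ℤ :=
  ∑ x, c (v 0) (v 1) ((v 2 * v 3) • x) * c' (v 2) (v 3) x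

variable {N : ℕ}

/-- `lam : G × P → ℤ/N` is a cocycle of degree one. -/
def IsLam (lam : G → P → ZMod N) : Prop :=
  ∀ g h x, lam (g * h) x = lam g (h • x) + lam h x

/-- The first Chern class of the flat line bundle given by `lam`. -/
def chernOf (lam : G → P → ZMod N) (g h : G) (x : P) : ℤ :=
  (((lam g (h • x)).val : ℤ) + (lam h x).val - (lam (g * h) x).val) / N

end

/-- A finite covering of a space with fundamental group `G` (a finite `G`-set `P`), and on it a flat
line bundle with structure group `ℤ/N`: `lam g x ∈ ℤ/N` is the parallel transport from the fibre at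
`x` to the fibre at `g x`. -/
structure FlatBundle (G : Type) [Group G] (N : ℕ) where
  /-- the fibre of the covering -/
  P : Type
  [fin : Fintype P]
  [act : MulAction G P]
  /-- the transport -/
  lam : G → P → ZMod N
  lam_mul : ∀ g h x, lam (g * h) x = lam g (h • x) + lam h x

attribute [instance] FlatBundle.fin FlatBundle.act

end Pool.Agent.N167.ST
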