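import Pool.Agent.N167.Coh
import Pool.Agent.N167.FlatDef

/-!
# Flat line bundles of finite order on finite coverings and the push-forward of `c₁²`
-/

open CategoryTheory

set_option autoImplicit false

namespace Pool.Agent.N167.ST

section cup

variable {G P : Type} [Group G] [MulAction G P] [Fintype P]

theorem sum_smul (f : P → ℤ) (g : G) : ∑ x, f (g • x) = ∑ x, f x :=
  Equiv.sum_comp (MulAction.toPerm g) f

theorem cob_cupSum (c c' : G → G → P → ℤ) (hc : IsCoc c) (hc' : IsCoc c') :
    cob 4 (cupSum c c') = 0 := by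
  funext v
  rw [vec_five v]
  generalize v 0 = a
  generalize v 1 = b
  generalize v 2 = d
  generalize v 3 = e
  generalize v 4 = f
  rw [cob_four]
  have h6 : cupSum c c' ![a, b, d, e] =
      ∑ x, c a b ((d * (e * f)) • x) * c' d e (f • x) := by
    unfold cupSum
    rw [← sum_smul _ f]
    refine Finset.sum_congr rfl fun x _ => ?_
    simp only [Matrix.cons_val]
    rw [smul_smul, mul_assoc]
  rw [h6]
  simp only [cupSum, Matrix.cons_val]
  rw [← Finset.sum_sub_distrib, ← Finset.sum_add_distrib, ← Finset.sum_sub_distrib,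
    ← Finset.sum_add_distrib, ← Finset.sum_sub_distrib]
  refine Finset.sum_eq_zero fun x _ => ?_
  have h1 := hc a b d ((e * f) • x)
  have h2 := hc' d e f x
  rw [smul_smul] at h1
  rw [mul_assoc]
  linear_combination c' e f x * h1 + c a b ((d * (e * f)) • x) * h2

/-- Changing `c` by a coboundary changes the sum of the cup square by a coboundary. -/
theorem cupSum_sub (c c' : G → G → P → ℤ) (hc : IsCoc c) (hc' : IsCoc c') (b : G → P → ℤ)
    (hb : ∀ g h x, c' g h x = c g h x + (b h x - b (g * h) x + b g (h • x))) :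
    cupSum c' c' - cupSum c c = cob 3 (fun v => ∑ x, (c (v 0) (v 1) (v 2 • x) * b (v 2) x
      + b (v 0) ((v 1 * v 2) • x) * c' (v 1) (v 2) x)) := by
  funext v
  rw [vec_four v]
  generalize v 0 = g
  generalize v 1 = h
  generalize v 2 = k
  generalize v 3 = l
  rw [cob_three]
  simp only [Pi.sub_apply, cupSum, Matrix.cons_val]
  have h5 : (∑ x, (c g h (k • x) * b k x + b g ((h * k) • x) * c' h k x)) =
      ∑ x, (c g h ((k * l) • x) * b k (l • x) + b g ((h * (k * l)) • x) * c' h k (l • x)) := by
    rw [← sum_smul _ l]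
    refine Finset.sum_congr rfl fun x _ => ?_
    rw [smul_smul, smul_smul, mul_assoc]
  rw [h5]
  rw [← Finset.sum_sub_distrib, ← Finset.sum_sub_distrib, ← Finset.sum_add_distrib,
    ← Finset.sum_sub_distrib, ← Finset.sum_add_distrib]
  refine Finset.sum_congr rfl fun x _ => ?_
  have e1 := hc' h k l x
  have e2 := hc g h k (l • x)
  have e3 := hb g h ((k * l) • x)
  have e4 := hb k l x
  rw [smul_smul] at e2 e3
  simp only [mul_assoc]
  linear_combination c' k l x * e3 + c g h ((k * l) • x) * e4 - b l x * e2 +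
    b g ((h * (k * l)) • x) * e1

/-- If `c` is a cocycle and `N c` is the coboundary of `u`, then `N` times the sum of the cup square
is a coboundary. -/
theorem cupSum_torsion (N : ℤ) (c : G → G → P → ℤ) (hc : IsCoc c) (u : G → P → ℤ)
    (hu : ∀ g h x, N * c g h x = u h x - u (g * h) x + u g (h • x)) :
    N • cupSum c c = cob 3 (fun v => ∑ x, u (v 0) ((v 1 * v 2) • x) * c (v 1) (v 2) x) := by
  funext v
  rw [vec_four v]
  generalize v 0 = g
  generalize v 1 = h
  generalize v 2 = k
  generalize v 3 = l
  rw [cob_three]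
  simp only [Pi.smul_apply, cupSum, Matrix.cons_val, smul_eq_mul]
  have h5 : (∑ x, u g ((h * k) • x) * c h k x) =
      ∑ x, u g ((h * (k * l)) • x) * c h k (l • x) := by
    rw [← sum_smul _ l]
    refine Finset.sum_congr rfl fun x _ => ?_
    rw [smul_smul, mul_assoc]
  rw [h5]
  rw [← Finset.sum_sub_distrib, ← Finset.sum_add_distrib, ← Finset.sum_sub_distrib,
    ← Finset.sum_add_distrib, Finset.mul_sum]
  refine Finset.sum_congr rfl fun x _ => ?_
  have e1 := hc h k l x
  have e3 := hu g h ((k * l) • x)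
  rw [smul_smul] at e3
  simp only [mul_assoc]
  linear_combination c k l x * e3 + u g ((h * (k * l)) • x) * e1

end cup

section lam

variable {G P : Type} [Group G] [MulAction G P] [Fintype P] {N : ℕ} [NeZero N]

omit [Fintype P] in
theorem mul_chernOf (lam : G → P → ZMod N) (hl : IsLam lam) (g h : G) (x : P) :
    (N : ℤ) * chernOf lam g h x = (lam g (h • x)).val + (lam h x).val - (lam (g * h) x).val := by
  unfold chernOf
  apply Int.mul_ediv_cancel'
  rw [← ZMod.intCast_zmod_eq_zero_iff_dvd]
  push_cast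
  rw [ZMod.natCast_zmod_val, ZMod.natCast_zmod_val, ZMod.natCast_zmod_val, hl]
  ring

omit [Fintype P] in
theorem isCoc_chernOf (lam : G → P → ZMod N) (hl : IsLam lam) : IsCoc (chernOf lam) := by
  intro g h k x
  have hN : (N : ℤ) ≠ 0 := by exact_mod_cast NeZero.ne N
  apply mul_left_cancel₀ hN
  have h1 := mul_chernOf lam hl h k x
  have h2 := mul_chernOf lam hl (g * h) k x
  have h3 := mul_chernOf lam hl g (h * k) x
  have h4 := mul_chernOf lam hl g h (k • x)
  rw [smul_smul] at h4
  rw [← mul_assoc] at h3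
  linear_combination h1 - h2 + h3 - h4

omit [Fintype P] in
/-- Changing the trivialisations changes the Chern class by a coboundary. -/
theorem chernOf_change (lam lam' : G → P → ZMod N) (hl : IsLam lam) (hl' : IsLam lam')
    (μ : P → ZMod N) (h : ∀ g x, lam' g x = lam g x + μ (g • x) - μ x) :
    ∃ b : G → P → ℤ, ∀ g h x, chernOf lam' g h x =
      chernOf lam g h x + (b h x - b (g * h) x + b g (h • x)) := by
  have hN : (N : ℤ) ≠ 0 := by exact_mod_cast NeZero.ne N
  have hb : ∀ g x, ∃ b : ℤ, (N : ℤ) * b =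
      (lam' g x).val - (lam g x).val - (μ (g • x)).val + (μ x).val := by
    intro g x
    have : ((N : ℤ)) ∣ (lam' g x).val - (lam g x).val - (μ (g • x)).val + (μ x).val := by
      rw [← ZMod.intCast_zmod_eq_zero_iff_dvd]
      push_cast
      simp only [ZMod.natCast_zmod_val]
      rw [h]
      ring
    obtain ⟨b, hb⟩ := this
    exact ⟨b, hb.symm⟩
  choose b hb using hb
  refine ⟨b, fun g h x => ?_⟩
  apply mul_left_cancel₀ hN
  have e1 := mul_chernOf lam hl g h x
  have e2 := mul_chernOf lam' hl' g h x
  have b1 := hb h x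
  have b2 := hb (g * h) x
  have b3 := hb g (h • x)
  rw [smul_smul] at b3
  linear_combination e2 - e1 - b1 + b2 - b3

omit [NeZero N] in
/-- If `lam` vanishes outside of the image of the equivariant injection `ι` then only the points
in the image contribute. -/
theorem cupSum_of_injective {Q : Type} [MulAction G Q] [Fintype Q] (ι : Q → P)
    (hι : Function.Injective ι) (hG : ∀ (g : G) x, ι (g • x) = g • ι x) (lam : G → P → ZMod N)
    (h0 : ∀ g x, x ∉ Set.range ι → lam g x = 0) :
    cupSum (chernOf lam) (chernOf lam) =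
      cupSum (chernOf fun (g : G) (x : Q) => lam g (ι x)) (chernOf fun g x => lam g (ι x)) := by
  funext v
  unfold cupSum
  have hmem : ∀ (g : G) x, x ∉ Set.range ι → g • x ∉ Set.range ι := by
    rintro g x hx ⟨y, hy⟩
    exact hx ⟨g⁻¹ • y, by rw [hG, hy, inv_smul_smul]⟩
  have h1 : ∀ (g h : G) x, x ∉ Set.range ι → chernOf lam g h x = 0 := by
    intro g h x hx
    unfold chernOf
    rw [h0 _ _ (hmem h x hx), h0 _ _ hx, h0 _ _ hx]
    simp
  have h2 : ∀ (g h : G) x, chernOf lam g h (ι x) = chernOf (fun g x => lam g (ι x)) g h x := by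
    intro g h x
    unfold chernOf
    simp only [hG]
  symm
  refine Finset.sum_of_injOn ι (fun a _ b _ h => hι h) (fun _ _ => Finset.mem_coe.2 (Finset.mem_univ _))
    (fun x _ hx => ?_) (fun x _ => ?_)
  · have hx' : x ∉ Set.range ι := by
      rintro ⟨y, rfl⟩
      exact hx ⟨y, Finset.mem_coe.2 (Finset.mem_univ _), rfl⟩
    rw [h1 _ _ _ hx', mul_zero]
  · simp only [h2, ← hG]

end lam

end Pool.Agent.N167.ST
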