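import Pool.Agent.N167.SurfDef

/-!
# Endomorphisms of the free group which fix the boundary loop preserve the form
-/

set_option autoImplicit false

open scoped commutatorElement

namespace Pool.Agent.N167.ST

/-- The quotient map from the free group to the surface group. -/
def mkS (g : ℕ) : FreeGroup (Fin g × Bool) →* SurfaceGroup g := PresentedGroup.mk {relator g}

/-- The homomorphism with given values on the letters. -/
def homOf {g : ℕ} {K : Type} [Group K] (f : Fin g × Bool → K)
    (h : FreeGroup.lift f (relator g) = 1) : SurfaceGroup g →* K :=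
  PresentedGroup.toGroup (rels := {relator g}) (f := f) (by
    intro r hr
    rw [Set.mem_singleton_iff] at hr
    rw [hr, h])

theorem homOf_gen {g : ℕ} {K : Type} [Group K] (f : Fin g × Bool → K)
    (h : FreeGroup.lift f (relator g) = 1) (x : Fin g × Bool) : homOf f h (gen g x) = f x :=
  PresentedGroup.toGroup.of _

theorem hom_ext {g : ℕ} {K : Type} [Group K] {f₁ f₂ : SurfaceGroup g →* K}
    (h : ∀ x, f₁ (gen g x) = f₂ (gen g x)) : f₁ = f₂ := PresentedGroup.ext h

/-- The integral Heisenberg group. -/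
@[ext] structure Heis where
  x : ℤ
  y : ℤ
  z : ℤ

namespace Heis

instance : Mul Heis := ⟨fun a b => ⟨a.x + b.x, a.y + b.y, a.z + b.z + a.x * b.y⟩⟩
instance : One Heis := ⟨⟨0, 0, 0⟩⟩
instance : Inv Heis := ⟨fun a => ⟨-a.x, -a.y, -a.z + a.x * a.y⟩⟩

theorem mul_def (a b : Heis) : a * b = ⟨a.x + b.x, a.y + b.y, a.z + b.z + a.x * b.y⟩ := rfl
theorem one_def : (1 : Heis) = ⟨0, 0, 0⟩ := rfl
theorem inv_def (a : Heis) : a⁻¹ = ⟨-a.x, -a.y, -a.z + a.x * a.y⟩ := rfl

instance : Group Heis := Group.ofLeftAxioms
  (by intro a b c; simp only [mul_def]; ext <;> ring)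
  (by intro a; simp only [mul_def, one_def]; ext <;> simp)
  (by intro a; simp only [mul_def, one_def, inv_def]; ext <;> ring)

theorem comm_def (a b : Heis) : ⁅a, b⁆ = ⟨0, 0, a.x * b.y - b.x * a.y⟩ := by
  rw [commutatorElement_def]
  simp only [mul_def, inv_def]
  ext
  · ring
  · ring
  · ring

theorem z_prod (l : List Heis) (h : ∀ a ∈ l, a.x = 0 ∧ a.y = 0) :
    l.prod = ⟨0, 0, (l.map Heis.z).sum⟩ := by
  induction l with
  | nil => rfl
  | cons a l ih =>
    rw [List.prod_cons, ih (fun b hb => h b (List.mem_cons_of_mem _ hb)), mul_def]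
    obtain ⟨h1, h2⟩ := h a List.mem_cons_self
    ext
    · simp [h1]
    · simp [h2]
    · simp [h1]

/-- projection to the first coordinate -/
def hx : Heis →* Multiplicative ℤ where
  toFun a := Multiplicative.ofAdd a.x
  map_one' := rfl
  map_mul' _ _ := rfl

/-- projection to the second coordinate -/
def hy : Heis →* Multiplicative ℤ where
  toFun a := Multiplicative.ofAdd a.y
  map_one' := rfl
  map_mul' _ _ := rfl

end Heis

/-- the form on homomorphisms of the free group -/
def formF (g : ℕ) (α β : FreeGroup (Fin g × Bool) →* Multiplicative ℤ) : ℤ :=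
  ∑ i : Fin g, ((α (FreeGroup.of (i, false))).toAdd * (β (FreeGroup.of (i, true))).toAdd -
    (α (FreeGroup.of (i, true))).toAdd * (β (FreeGroup.of (i, false))).toAdd)

theorem formF_eq (g : ℕ) (h : FreeGroup (Fin g × Bool) →* Heis) :
    (h (relator g)).z = formF g (Heis.hx.comp h) (Heis.hy.comp h) := by
  unfold relator
  rw [map_list_prod, List.map_ofFn]
  have h1 : (fun i : Fin g => h ⁅FreeGroup.of (i, false), FreeGroup.of (i, true)⁆) =
      fun i : Fin g => (⟨0, 0, (h (FreeGroup.of (i, false))).x * (h (FreeGroup.of (i, true))).y -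
        (h (FreeGroup.of (i, true))).x * (h (FreeGroup.of (i, false))).y⟩ : Heis) := by
    funext i
    rw [map_commutatorElement, Heis.comm_def]
  have h2 : (h ∘ fun i : Fin g => ⁅FreeGroup.of (i, false), FreeGroup.of (i, true)⁆) = _ := h1
  rw [h2, Heis.z_prod, List.map_ofFn]
  · show (List.ofFn _).sum = _
    rw [List.sum_ofFn]
    rfl
  · intro a ha
    rw [List.mem_ofFn] at ha
    obtain ⟨i, rfl⟩ := ha
    exact ⟨rfl, rfl⟩

/-- Endomorphisms of the free group which fix the boundary loop preserve the intersection form. -/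
theorem formF_comp (g : ℕ) (φ : FreeGroup (Fin g × Bool) →* FreeGroup (Fin g × Bool))
    (hφ : φ (relator g) = relator g) (α β : FreeGroup (Fin g × Bool) →* Multiplicative ℤ) :
    formF g (α.comp φ) (β.comp φ) = formF g α β := by
  let h : FreeGroup (Fin g × Bool) →* Heis :=
    FreeGroup.lift fun x => ⟨(α (FreeGroup.of x)).toAdd, (β (FreeGroup.of x)).toAdd, 0⟩
  have hα : Heis.hx.comp h = α := by
    ext x
    show ((h (FreeGroup.of x)).x : ℤ) = _
    rw [FreeGroup.lift_apply_of]
  have hβ : Heis.hy.comp h = β := by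
    ext x
    show ((h (FreeGroup.of x)).y : ℤ) = _
    rw [FreeGroup.lift_apply_of]
  have h1 := formF_eq g h
  have h2 := formF_eq g (h.comp φ)
  rw [hα, hβ] at h1
  rw [← MonoidHom.comp_assoc, ← MonoidHom.comp_assoc, hα, hβ, MonoidHom.comp_apply, hφ, h1] at h2
  exact h2.symm

end Pool.Agent.N167.ST
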