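import Pool.Agent.N167.Flat

/-!
# The flat line bundle on the covering given by a projective space
-/

open CategoryTheory
open scoped LinearAlgebra.Projectivization

set_option autoImplicit false

namespace Pool.Agent.N167.ST

section proj

variable (K V : Type) [Field K] [AddCommGroup V] [Module K V]

/-- A choice of a nonzero vector on every line of `V`. -/
structure Sec where
  /-- the vector -/
  s : ℙ K V → V
  ne : ∀ x, s x ≠ 0
  mk_s : ∀ x, Projectivization.mk K (s x) (ne x) = x

/-- The standard choice. -/
noncomputable def repSec : Sec K V where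
  s x := x.rep
  ne x := x.rep_nonzero
  mk_s x := x.mk_rep

variable {K V}
variable {G : Type} [Group G] [DistribMulAction G V] [SMulCommClass G K V]

theorem unit_ext {v : V} (hv : v ≠ 0) {a b : Kˣ} (h : a • v = b • v) : a = b := by
  apply Units.ext
  have h1 : (a : K) • v = (b : K) • v := h
  exact smul_left_injective K hv h1

theorem exists_unit (S : Sec K V) (g : G) (x : ℙ K V) :
    ∃ a : Kˣ, a • S.s (g • x) = g • S.s x := by
  rw [← Projectivization.mk_eq_mk_iff K _ _ ((smul_ne_zero_iff_ne g).mpr (S.ne x)) (S.ne (g • x))]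
  rw [S.mk_s, ← Projectivization.smul_mk _ (S.ne x), S.mk_s]

/-- The scalar `a` with `g (s x) = a s (g x)`. -/
noncomputable def unitOf (S : Sec K V) (g : G) (x : ℙ K V) : Kˣ := (exists_unit S g x).choose

theorem unitOf_spec (S : Sec K V) (g : G) (x : ℙ K V) :
    unitOf S g x • S.s (g • x) = g • S.s x := (exists_unit S g x).choose_spec

theorem unitOf_mul (S : Sec K V) (g h : G) (x : ℙ K V) :
    unitOf S (g * h) x = unitOf S g (h • x) * unitOf S h x := by
  apply unit_ext (S.ne ((g * h) • x))
  have e1 : (g * h) • S.s x = unitOf S h x • unitOf S g (h • x) • S.s (g • h • x) := by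
    rw [mul_smul, ← unitOf_spec S h x, unitOf_spec S g (h • x), Units.smul_def, Units.smul_def,
      smul_comm]
  rw [unitOf_spec, e1, mul_comm, mul_smul _ _ (S.s _), mul_smul g h x]

variable {N : ℕ} (χ : Kˣ →* Multiplicative (ZMod N))

/-- The transport in the flat line bundle over `ℙ K V` given by `χ` and a choice of vectors. -/
noncomputable def lamOf (S : Sec K V) (g : G) (x : ℙ K V) : ZMod N :=
  (χ (unitOf S g x)).toAdd

theorem isLam_lamOf (S : Sec K V) : IsLam (lamOf (G := G) χ S) := by
  intro g h x
  unfold lamOf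
  rw [unitOf_mul, map_mul, toAdd_mul]

theorem lamOf_change (S S' : Sec K V) : ∃ μ : ℙ K V → ZMod N, ∀ (g : G) (x : ℙ K V),
    lamOf χ S' g x = lamOf χ S g x + μ (g • x) - μ x := by
  have h : ∀ x, ∃ a : Kˣ, a • S.s x = S'.s x := by
    intro x
    rw [← Projectivization.mk_eq_mk_iff K _ _ (S'.ne x) (S.ne x), S.mk_s, S'.mk_s]
  choose ν hν using h
  refine ⟨fun x => - (χ (ν x)).toAdd, fun g x => ?_⟩
  have h1 : unitOf S' g x * ν (g • x) = ν x * unitOf S g x := by
    apply unit_ext (S.ne (g • x))
    rw [mul_smul, hν, unitOf_spec, ← hν, mul_smul, unitOf_spec, Units.smul_def, Units.smul_def,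
      smul_comm]
  have h2 := congrArg (fun t => (χ t).toAdd) h1
  simp only [map_mul, toAdd_mul] at h2
  unfold lamOf
  linear_combination h2

variable [Finite V] [NeZero N]

noncomputable instance : Fintype (ℙ K V) := Fintype.ofFinite _

variable (K V G) in
/-- Let the group `G` act linearly on the finite vector space `V`. The covering is the set of the
lines in `V`, and the flat line bundle is given by the character `χ` of `Kˣ`: the transport from a
line `x` to the line `g x` is `χ (a)`, if `g v = a w` for the chosen vectors `v` and `w` on these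
lines. -/
noncomputable def projBundle : FlatBundle G N where
  P := ℙ K V
  lam := lamOf χ (repSec K V)
  lam_mul := isLam_lamOf χ (repSec K V)

theorem cob_of_sec (S : Sec K V) : cob 4 (cupSum (chernOf (lamOf (G := G) χ S))
    (chernOf (lamOf (G := G) χ S))) = 0 :=
  cob_cupSum _ _ (isCoc_chernOf _ (isLam_lamOf χ S)) (isCoc_chernOf _ (isLam_lamOf χ S))

/-- The class can be computed with any choice of vectors. -/
theorem pushSq_projBundle (S : Sec K V) :
    (projBundle K V G χ).pushSq = cls _ (cob_of_sec (G := G) χ S) := by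
  unfold FlatBundle.pushSq
  rw [cls_eq_iff]
  obtain ⟨μ, hμ⟩ := lamOf_change (G := G) χ S (repSec K V)
  obtain ⟨b, hb⟩ := chernOf_change _ _ (isLam_lamOf χ S) (isLam_lamOf χ (repSec K V)) μ hμ
  exact ⟨_, cupSum_sub _ _ (isCoc_chernOf _ (isLam_lamOf χ S))
    (isCoc_chernOf _ (isLam_lamOf χ (repSec K V))) b hb⟩

end proj

section compat

variable {K V W U : Type} [Field K] [AddCommGroup V] [Module K V] [AddCommGroup W] [Module K W]
  [AddCommGroup U] [Module K U]
  {G : Type} [Group G] [DistribMulAction G V] [SMulCommClass G K V] [DistribMulAction G W]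
  [SMulCommClass G K W] [Finite V] [Finite W] {N : ℕ} [NeZero N]
  (χ : Kˣ →* Multiplicative (ZMod N))

/-- If `W` is an extension of a trivial representation of `G` by `V`, then `V` and `W` give the same
class. -/
theorem pushSq_eq_of_extension (i : V →ₗ[K] W) (hi : Function.Injective i)
    (hiG : ∀ (g : G) v, i (g • v) = g • i v) (p : W →ₗ[K] U) (hp : ∀ (g : G) w, p (g • w) = p w)
    (hip : ∀ w, p w = 0 → ∃ v, i v = w) :
    (projBundle K W G χ).pushSq = (projBundle K V G χ).pushSq := by
  classical
  let ι : ℙ K V → ℙ K W := Projectivization.map i hi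
  have hι : Function.Injective ι := Projectivization.map_injective i hi
  have hιG : ∀ (g : G) x, ι (g • x) = g • ι x := by
    intro g x
    induction x using Projectivization.ind with
    | h v hv =>
      rw [Projectivization.smul_mk]
      show Projectivization.map i hi _ = g • Projectivization.map i hi _
      rw [Projectivization.map_mk, Projectivization.map_mk, Projectivization.smul_mk]
      congr 1
      exact hiG g v
  have hout : ∀ w (hw : w ≠ 0), Projectivization.mk K w hw ∉ Set.range ι → p w ≠ 0 := by
    intro w hw hx h0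
    obtain ⟨v, rfl⟩ := hip w h0
    have hv : v ≠ 0 := by
      rintro rfl
      exact hw (map_zero i)
    exact hx ⟨Projectivization.mk K v hv, rfl⟩
  -- the choice of vectors
  have hS : ∀ x : ℙ K W, ∃ w : W, ∃ hw : w ≠ 0, Projectivization.mk K w hw = x ∧
      (∀ y : ℙ K V, ι y = x → w = i y.rep) ∧
      (x ∉ Set.range ι → ∃ hw' : p w ≠ 0, p w = (Projectivization.mk K (p w) hw').rep) := by
    intro x
    by_cases hx : x ∈ Set.range ι
    · obtain ⟨y, rfl⟩ := hx
      refine ⟨i y.rep, fun h => y.rep_nonzero (hi (h.trans (map_zero i).symm)), ?_, ?_, ?_⟩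
      · conv_rhs => rw [← y.mk_rep]
        rfl
      · intro z hz
        rw [hι hz]
      · intro h
        exact absurd ⟨y, rfl⟩ h
    · have h1 : p x.rep ≠ 0 := hout x.rep x.rep_nonzero (by rw [x.mk_rep]; exact hx)
      obtain ⟨a, ha⟩ : ∃ a : Kˣ, a • p x.rep = (Projectivization.mk K (p x.rep) h1).rep := by
        rw [← Projectivization.mk_eq_mk_iff K _ _ (Projectivization.rep_nonzero _) h1,
          Projectivization.mk_rep]
      have h2 : a • x.rep ≠ 0 := (smul_ne_zero_iff_ne a).2 x.rep_nonzero
      have h3 : p (a • x.rep) = a • p x.rep := by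
        rw [Units.smul_def, Units.smul_def, map_smul]
      have h4 : p (a • x.rep) ≠ 0 := by
        rw [h3]
        exact (smul_ne_zero_iff_ne a).2 h1
      refine ⟨a • x.rep, h2, ?_, ?_, fun _ => ⟨h4, ?_⟩⟩
      · conv_rhs => rw [← x.mk_rep]
        rw [Projectivization.mk_eq_mk_iff]
        exact ⟨a, rfl⟩
      · rintro y rfl
        exact absurd ⟨y, rfl⟩ hx
      · have h5 : Projectivization.mk K (p (a • x.rep)) h4 = Projectivization.mk K (p x.rep) h1 := by
          rw [Projectivization.mk_eq_mk_iff]
          exact ⟨a, h3.symm⟩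
        rw [h5, ← ha, h3]
  choose s hs0 hs1 hs2 hs3 using hS
  let S : Sec K W := ⟨s, hs0, hs1⟩
  rw [pushSq_projBundle (G := G) χ S]
  have h1 : ∀ (g : G) x, x ∉ Set.range ι → lamOf χ S g x = 0 := by
    intro g x hx
    have hgx : g • x ∉ Set.range ι := by
      rintro ⟨y, hy⟩
      exact hx ⟨g⁻¹ • y, by rw [hιG, hy, inv_smul_smul]⟩
    obtain ⟨e1, e2⟩ := hs3 x hx
    obtain ⟨e3, e4⟩ := hs3 (g • x) hgx
    have h2 := unitOf_spec S g x
    have h3 : unitOf S g x • p (s (g • x)) = p (s x) := by
      have := congrArg p h2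
      rw [hp, Units.smul_def, map_smul] at this
      exact this
    have h4 : Projectivization.mk K (p (s (g • x))) e3 = Projectivization.mk K (p (s x)) e1 := by
      symm
      rw [Projectivization.mk_eq_mk_iff]
      exact ⟨_, h3⟩
    rw [h4, ← e2] at e4
    have h5 : unitOf S g x = 1 := by
      apply unit_ext e1
      rw [one_smul]
      conv_lhs => rw [← e4]
      exact h3
    unfold lamOf
    rw [h5, map_one, toAdd_one]
  have h2 : ∀ (g : G) (x : ℙ K V), lamOf χ S g (ι x) = lamOf χ (repSec K V) g x := by
    intro g x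
    unfold lamOf
    congr 2
    have e1 : S.s (ι x) = i x.rep := hs2 (ι x) x rfl
    have e2 : S.s (g • ι x) = i (g • x).rep := hs2 (g • ι x) (g • x) (hιG g x)
    apply unit_ext (S.ne (g • ι x))
    rw [unitOf_spec, e1, e2, ← hiG, Units.smul_def, ← map_smul]
    congr 1
    exact (unitOf_spec (repSec K V) g x).symm
  unfold FlatBundle.pushSq
  congr 1
  have h3 := cupSum_of_injective ι hι hιG (lamOf χ S) h1
  rw [h3]
  simp only [h2]
  rfl

end compat

end Pool.Agent.N167.ST
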