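import Pool.Agent.N167.FlatLem

/-!
# The push-forward of `c₁²`: definition
-/

set_option autoImplicit false

namespace Pool.Agent.N167.ST

namespace FlatBundle

variable {G : Type} [Group G] {N : ℕ} [NeZero N]

/-- The cocycle `p_* (c₁(L)²)` of the flat line bundle `L` on the covering `p`. -/
def sq (B : FlatBundle G N) : (Fin 4 → G) → ℤ :=
  cupSum (chernOf B.lam) (chernOf B.lam)

theorem cob_sq (B : FlatBundle G N) : cob 4 B.sq = 0 :=
  cob_cupSum _ _ (isCoc_chernOf _ B.lam_mul) (isCoc_chernOf _ B.lam_mul)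

/-- The class `p_* (c₁(L)²) ∈ H⁴(G; ℤ)`. -/
noncomputable def pushSq (B : FlatBundle G N) : H G 4 := cls B.sq B.cob_sq

end FlatBundle

end Pool.Agent.N167.ST
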