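import Pool.Agent.N167.Act

/-!
# Rotations of the handles
-/

open CategoryTheory
open scoped LinearAlgebra.Projectivization commutatorElement

set_option autoImplicit false

namespace Pool.Agent.N167.ST

section rot

variable (n : ℕ)

/-- the commutator of the letters of a handle in the surface group -/
def hc (g : ℕ) (i : Fin g) : SurfaceGroup g :=
  ⁅gen g (i, false), gen g (i, true)⁆

theorem prod_hc (g : ℕ) : (List.ofFn (hc g)).prod = 1 := by
  have h : mkS g (relator g) = 1 :=
    PresentedGroup.one_of_mem (Set.mem_singleton _)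
  have h2 : mkS g (List.ofFn fun i : Fin g =>
      ⁅FreeGroup.of (i, false), FreeGroup.of (i, true)⁆).prod = (List.ofFn (hc g)).prod := by
    rw [map_list_prod, List.map_ofFn]
    congr 2
  exact h2.symm.trans h

theorem lift_perm (g : ℕ) (σ : Equiv.Perm (Fin g)) :
    FreeGroup.lift (fun x : Fin g × Bool => gen g (σ x.1, x.2))
      (relator g) = (List.ofFn fun i => hc g (σ i)).prod := by
  unfold relator
  rw [map_list_prod, List.map_ofFn]
  congr 2

theorem rot_good : (List.ofFn fun i => hc (n + 1) (finRotate (n + 1) i)).prod = 1 := by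
  have h1 := prod_hc (n + 1)
  rw [List.ofFn_succ, List.prod_cons] at h1
  rw [List.ofFn_succ', List.prod_concat, finRotate_last]
  have h2 : (fun i : Fin n => hc (n + 1) (finRotate (n + 1) i.castSucc)) =
      fun i : Fin n => hc (n + 1) i.succ := by
    funext i
    congr 1
    exact finRotate_of_lt i.2
  rw [h2]
  exact mul_eq_one_comm.1 h1

theorem rot_symm_good : (List.ofFn fun i => hc (n + 1) ((finRotate (n + 1)).symm i)).prod = 1 := by
  have h1 := prod_hc (n + 1)
  rw [List.ofFn_succ', List.prod_concat] at h1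
  rw [List.ofFn_succ, List.prod_cons]
  have h3 : (finRotate (n + 1)).symm 0 = Fin.last n := by
    rw [Equiv.symm_apply_eq, finRotate_last]
  have h2 : (fun i : Fin n => hc (n + 1) ((finRotate (n + 1)).symm i.succ)) =
      fun i : Fin n => hc (n + 1) i.castSucc := by
    funext i
    congr 1
    rw [Equiv.symm_apply_eq]
    exact (finRotate_of_lt i.2).symm
  rw [h2, h3]
  exact mul_eq_one_comm.1 h1

/-- the endomorphism given by a permutation of the handles -/
def permHom (g : ℕ) (σ : Equiv.Perm (Fin g)) (h : (List.ofFn fun i => hc g (σ i)).prod = 1) :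
    SurfaceGroup g →* SurfaceGroup g :=
  homOf (fun x : Fin g × Bool => gen g (σ x.1, x.2)) (by rw [lift_perm, h])

theorem permHom_of (g : ℕ) (σ : Equiv.Perm (Fin g)) (h : (List.ofFn fun i => hc g (σ i)).prod = 1)
    (x : Fin g × Bool) : permHom g σ h (gen g x) = gen g (σ x.1, x.2) :=
  homOf_gen _ _ x

/-- The rotation of the handles. -/
def rot : MulAut (SurfaceGroup (n + 1)) :=
  MonoidHom.toMulEquiv (permHom (n + 1) (finRotate (n + 1)) (rot_good n))
    (permHom (n + 1) (finRotate (n + 1)).symm (rot_symm_good n))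
    (by
      apply hom_ext
      intro x
      rw [MonoidHom.comp_apply, permHom_of, permHom_of, Equiv.symm_apply_apply]
      rfl)
    (by
      apply hom_ext
      intro x
      rw [MonoidHom.comp_apply, permHom_of, permHom_of, Equiv.apply_symm_apply]
      rfl)

theorem rot_of (x : Fin (n + 1) × Bool) :
    rot n (gen (n + 1) x) = gen (n + 1) (finRotate (n + 1) x.1, x.2) :=
  permHom_of _ _ (rot_good n) x

theorem rot_pow_of (k : ℕ) (x : Fin (n + 1) × Bool) :
    (rot n ^ k) (gen (n + 1) x) = gen (n + 1) ((finRotate (n + 1) ^ k) x.1, x.2) := by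
  induction k with
  | zero => rfl
  | succ k ih =>
    rw [pow_succ', MulAut.mul_apply, ih, rot_of, pow_succ', Equiv.Perm.mul_apply]

theorem rot_mem : rot n ∈ AutPlus (n + 1) := by
  intro α β
  unfold form
  have h : ∀ (γ : SurfaceGroup (n + 1) →* Multiplicative ℤ) x,
      (γ.comp (rot n).toMonoidHom) (gen (n + 1) x) =
        γ (gen (n + 1) (finRotate (n + 1) x.1, x.2)) := by
    intro γ x
    show γ (rot n (gen (n + 1) x)) = _
    rw [rot_of]
  simp only [h]
  exact Equiv.sum_comp (finRotate (n + 1)) (fun i =>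
    ((α (gen (n + 1) (i, false))).toAdd * (β (gen (n + 1) (i, true))).toAdd -
    (α (gen (n + 1) (i, true))).toAdd * (β (gen (n + 1) (i, false))).toAdd))

theorem finRotate_pow_val (k : ℕ) (i : Fin (n + 1)) :
    ((finRotate (n + 1) ^ k) i : ℕ) = (i + k) % (n + 1) := by
  induction k with
  | zero => simp [Nat.mod_eq_of_lt i.2]
  | succ k ih =>
    rw [pow_succ', Equiv.Perm.mul_apply, finRotate_apply, Fin.val_add, ih, ← add_assoc]
    simp [Nat.add_mod]

theorem rot_pow_self : rot n ^ (n + 1) = 1 := by
  apply MulEquiv.toMonoidHom_injective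
  apply hom_ext
  intro x
  show (rot n ^ (n + 1)) (gen (n + 1) x) = gen (n + 1) x
  rw [rot_pow_of]
  congr 2
  apply Fin.ext
  rw [finRotate_pow_val, Nat.add_mod_right, Nat.mod_eq_of_lt x.1.2]

/-- a power of the rotation as an orientation preserving automorphism -/
def rotP (k : ℕ) : AutP (n + 1) := ⟨rot n ^ k, (AutPlus (n + 1)).pow_mem (rot_mem n) k⟩

/-- the class of a rotation in the mapping class group -/
def rotC (k : ℕ) : MCG (n + 1) := toMCG (n + 1) (rotP n k)

theorem rotC_smul_at (k : ℕ) (α : V (n + 1)) (x : Fin (n + 1) × Bool) :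
    (rotC n k • α).at' ((finRotate (n + 1) ^ k) x.1, x.2) = α.at' x := by
  have h1 : (rotC n k • α).at' ((finRotate (n + 1) ^ k) x.1, x.2) =
      α (Additive.ofMul ((rot n ^ k)⁻¹ (gen (n + 1) ((finRotate (n + 1) ^ k) x.1, x.2)))) :=
    rfl
  rw [h1, ← rot_pow_of, MulAut.inv_apply_self]
  rfl

end rot

section count

theorem rotC_cube (n m : ℕ) (h : n + 1 = 3 * m) : rotC n m * rotC n m * rotC n m = 1 := by
  unfold rotC
  rw [← map_mul, ← map_mul]
  have h1 : rotP n m * rotP n m * rotP n m = 1 := by
    apply Subtype.ext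
    show rot n ^ m * rot n ^ m * rot n ^ m = 1
    rw [← pow_add, ← pow_add, show m + m + m = n + 1 by omega, rot_pow_self]
  rw [h1, map_one]

/-- eigenvectors of the rotation -/
theorem card_eigen (n m : ℕ) (h : n + 1 = 3 * m) (hm : 0 < m) (u w : ZMod 7) (huw : u * w = 1)
    (hw : w ^ 3 = 1) :
    Nat.card {f : Fin (n + 1) × Bool → ZMod 7 //
      ∀ x, f x = u * f ((finRotate (n + 1) ^ m) x.1, x.2)} = 7 ^ (2 * m) := by
  have hlt : ∀ i, i < m → i < n + 1 := by
    intro i hi
    omega
  have e : {f : Fin (n + 1) × Bool → ZMod 7 //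
      ∀ x, f x = u * f ((finRotate (n + 1) ^ m) x.1, x.2)} ≃ (Fin m × Bool → ZMod 7) :=
    { toFun := fun f x => f.1 (⟨x.1, hlt _ x.1.2⟩, x.2)
      invFun := fun q => ⟨fun x => w ^ ((x.1 : ℕ) / m) * q (⟨(x.1 : ℕ) % m, Nat.mod_lt _ hm⟩, x.2), by
        rintro ⟨i, e⟩
        simp only
        have h1 := finRotate_pow_val n m i
        have hi := i.2
        have h2 : ((finRotate (n + 1) ^ m) i : ℕ) % m = (i : ℕ) % m := by
          have h9 : m ∣ n + 1 := ⟨3, by omega⟩
          rw [h1, Nat.mod_mod_of_dvd _ h9, Nat.add_mod_right]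
        have h3 : u * w ^ (((finRotate (n + 1) ^ m) i : ℕ) / m) = w ^ ((i : ℕ) / m) := by
          rw [h1]
          rcases lt_or_ge ((i : ℕ) + m) (n + 1) with h4 | h4
          · rw [Nat.mod_eq_of_lt h4, Nat.add_div_right _ hm, pow_succ]
            linear_combination w ^ ((i : ℕ) / m) * huw
          · have h5 : ((i : ℕ) + m) % (n + 1) = i + m - (n + 1) := by
              rw [Nat.mod_eq_sub_mod h4, Nat.mod_eq_of_lt (by omega)]
            have h6 : (i + m - (n + 1)) / m = 0 := Nat.div_eq_of_lt (by omega)
            have h7 : (i : ℕ) / m = 2 := by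
              apply Nat.div_eq_of_lt_le <;> omega
            rw [h5, h6, h7, pow_zero, mul_one]
            linear_combination -u * hw + w ^ 2 * huw
        have h8 : (⟨((finRotate (n + 1) ^ m) i : ℕ) % m, Nat.mod_lt _ hm⟩ : Fin m) =
            ⟨(i : ℕ) % m, Nat.mod_lt _ hm⟩ := Fin.ext h2
        rw [h8, ← mul_assoc, h3]⟩
      left_inv := by
        rintro ⟨f, hf⟩
        apply Subtype.ext
        funext ⟨i, e⟩
        simp only
        have key : ∀ k (j : Fin (n + 1)), (j : ℕ) < m → (hk : k * m + j < n + 1) →
            f (⟨k * m + j, hk⟩, e) = w ^ k * f (j, e) := by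
          intro k
          induction k with
          | zero =>
            intro j hj hk
            rw [pow_zero, one_mul]
            congr 2
            apply Fin.ext
            simp
          | succ k ih =>
            intro j hj hk
            have hk' : k * m + j < n + 1 := by
              rw [add_mul] at hk
              omega
            have h1 := ih j hj hk'
            rw [hf (⟨k * m + j, hk'⟩, e)] at h1
            have h2 : (finRotate (n + 1) ^ m) ⟨k * m + j, hk'⟩ = ⟨(k + 1) * m + j, hk⟩ := by
              apply Fin.ext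
              rw [finRotate_pow_val]
              simp only
              rw [Nat.mod_eq_of_lt]
              · ring
              · have : (k + 1) * m + j = k * m + j + m := by ring
                omega
            simp only at h1
            rw [h2] at h1
            rw [pow_succ]
            linear_combination w * h1 - f (⟨(k + 1) * m + j, hk⟩, e) * huw
        have h1 : (i : ℕ) / m * m + (i : ℕ) % m = i := Nat.div_add_mod' _ _
        have h2 := key ((i : ℕ) / m) ⟨(i : ℕ) % m, hlt _ (Nat.mod_lt _ hm)⟩ (Nat.mod_lt _ hm)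
          (by
            show (i : ℕ) / m * m + (i : ℕ) % m < n + 1
            rw [h1]
            exact i.2)
        rw [← h2]
        congr 2
        apply Fin.ext
        exact h1
      right_inv := by
        intro q
        funext ⟨i, e⟩
        simp only
        have h1 : (i : ℕ) / m = 0 := Nat.div_eq_of_lt i.2
        rw [h1, pow_zero, one_mul]
        congr 2
        apply Fin.ext
        exact Nat.mod_eq_of_lt i.2 }
  rw [Nat.card_congr e, Nat.card_fun, Nat.card_zmod, Nat.card_prod, Nat.card_fin,
    Nat.card_eq_fintype_card, Fintype.card_bool, mul_comm]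

theorem card_eigenV (n m : ℕ) (h : n + 1 = 3 * m) (hm : 0 < m) (u : (ZMod 7)ˣ) (w : ZMod 7)
    (huw : u * w = 1) (hw : w ^ 3 = 1) :
    Nat.card {v : V (n + 1) // rotC n m • v = u • v} = 7 ^ (2 * m) := by
  rw [← card_eigen n m h hm u w huw hw]
  apply Nat.card_congr
  refine (coordV (n + 1)).toEquiv.subtypeEquiv fun α => ?_
  constructor
  · intro h1 x
    have h2 := rotC_smul_at n m α x
    rw [h1] at h2
    exact h2.symm
  · intro h1
    apply V.ext_at
    rintro ⟨i, e⟩
    obtain ⟨j, rfl⟩ := (finRotate (n + 1) ^ m).surjective i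
    rw [rotC_smul_at n m α (j, e)]
    exact h1 (j, e)

/-- The class is not zero if the genus is three times a number which is not divisible by three. -/
theorem ne_zero (m : ℕ) (hm : ¬ 3 ∣ m) : (lineBundle (3 * m)).pushSq ≠ 0 := by
  have hm0 : 0 < m := by
    rcases Nat.eq_zero_or_pos m with rfl | h
    · exact absurd (dvd_zero 3) hm
    · exact h
  obtain ⟨n, hn⟩ : ∃ n, 3 * m = n + 1 := ⟨3 * m - 1, by omega⟩
  rw [hn]
  apply pushSq_ne_zero (rotC n m) (rotC_cube n m hn.symm) (2 * m)
  · exact card_eigenV n m hn.symm hm0 u2 4 (by decide) (by decide)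
  · exact card_eigenV n m hn.symm hm0 u4 2 (by decide) (by decide)
  · omega

end count

end Pool.Agent.N167.ST
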