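import Pool.Agent.N167.Surf
import Pool.Agent.N167.CohDef

/-!
# Compatibility with stabilisation: definition
-/

set_option autoImplicit false

namespace Pool.Agent.N167.ST

/-- The classes `x_g ∈ H⁴(Γ_g; ℤ)` are compatible with stabilisation: `x_g` and `x_{g+1}` have the
same pull-back to `Γ_{g,∂}`, for all `g`. -/
def IsStable (x : (g : ℕ) → H (MCG g) 4) : Prop :=
  ∀ g, pb (cap g) (x g) = pb (stab g) (pb (cap (g + 1)) (x (g + 1)))

end Pool.Agent.N167.ST
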