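import Pool.Agent.N167.Heis
import Pool.Agent.N167.ExtLem

/-!
# Surface groups and mapping class groups
-/

set_option autoImplicit false

open scoped commutatorElement

namespace Pool.Agent.N167.ST

/-- The group of the orientation preserving automorphisms of `π_g`: those that preserve the
intersection form. -/
def AutPlus (g : ℕ) : Subgroup (MulAut (SurfaceGroup g)) where
  carrier := {φ | ∀ α β, form g (α.comp φ.toMonoidHom) (β.comp φ.toMonoidHom) = form g α β}
  mul_mem' {φ ψ} hφ hψ α β := by
    have h1 := hψ (α.comp φ.toMonoidHom) (β.comp φ.toMonoidHom)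
    rw [hφ α β] at h1
    exact h1
  one_mem' α β := rfl
  inv_mem' {φ} hφ α β := by
    have h1 := hφ (α.comp (φ⁻¹).toMonoidHom) (β.comp (φ⁻¹).toMonoidHom)
    rw [← h1]
    have h2 : ∀ γ : SurfaceGroup g →* Multiplicative ℤ,
        (γ.comp (φ⁻¹).toMonoidHom).comp φ.toMonoidHom = γ := by
      intro γ
      apply MonoidHom.ext
      intro x
      show γ (φ⁻¹ (φ x)) = γ x
      rw [MulAut.inv_apply_self]
    rw [h2, h2]

/-- The inner automorphisms of a group. -/
def Inn (G : Type) [Group G] : Subgroup (MulAut G) := (MulAut.conj (G := G)).range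

instance (G : Type) [Group G] : (Inn G).Normal := by
  constructor
  rintro _ ⟨x, rfl⟩ φ
  refine ⟨φ x, ?_⟩
  ext y
  simp [MulAut.mul_apply]

/-- The group `Aut⁺(π_g)` of the orientation preserving automorphisms of `π_g`. -/
def AutP (g : ℕ) : Type := AutPlus g

instance (g : ℕ) : Group (AutP g) := Subgroup.toGroup (AutPlus g)

/-- The inner automorphisms of `π_g`, as a subgroup of the group of the orientation preserving
automorphisms. -/
def InnPlus (g : ℕ) : Subgroup (AutP g) := (Inn (SurfaceGroup g)).subgroupOf (AutPlus g)

instance (g : ℕ) : (InnPlus g).Normal := by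
  unfold InnPlus
  exact inferInstanceAs ((Inn (SurfaceGroup g)).subgroupOf (AutPlus g)).Normal

/-- The mapping class group `Γ_g` of the closed oriented surface of genus `g`: the group
`Out⁺(π_g)` of the orientation preserving automorphisms of `π_g` modulo the inner ones. -/
def MCG (g : ℕ) : Type := AutP g ⧸ InnPlus g

instance (g : ℕ) : Group (MCG g) := QuotientGroup.Quotient.group (InnPlus g)

/-- The quotient map. -/
def toMCG (g : ℕ) : AutP g →* MCG g := QuotientGroup.mk' (InnPlus g)

/-- The mapping class group `Γ_{g,∂}` of the surface of genus `g` with one boundary component: the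
group of the automorphisms of its fundamental group, the free group on the letters `a_i`, `b_i`,
which fix the boundary loop `[a_0, b_0] ⋯ [a_{g-1}, b_{g-1}]`. -/
def MCGb (g : ℕ) : Type :=
  MulAction.stabilizer (MulAut (FreeGroup (Fin g × Bool))) (relator g)

instance (g : ℕ) : Group (MCGb g) :=
  Subgroup.toGroup (MulAction.stabilizer (MulAut (FreeGroup (Fin g × Bool))) (relator g))

/-- The automorphism of the free group. -/
def MCGb.aut {g : ℕ} (φ : MCGb g) : MulAut (FreeGroup (Fin g × Bool)) := φ.1

theorem MCGb.aut_relator {g : ℕ} (φ : MCGb g) : φ.aut (relator g) = relator g := φ.2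

theorem map_normalClosure (g : ℕ) (φ : MCGb g) :
    (Subgroup.normalClosure {relator g}).map φ.aut.toMonoidHom =
      Subgroup.normalClosure {relator g} := by
  have h : φ.aut (relator g) = relator g := φ.2
  rw [Subgroup.map_normalClosure _ _ φ.aut.surjective]
  congr 1
  simp only [MulEquiv.toMonoidHom_eq_coe, MonoidHom.coe_coe, Set.image_singleton]
  exact congrArg _ h

/-- The automorphism of `π_g` induced by an automorphism of the free group which fixes the boundary
loop. -/
def indAut (g : ℕ) (φ : MCGb g) : MulAut (SurfaceGroup g) :=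
  QuotientGroup.congr _ _ φ.aut (map_normalClosure g φ)

theorem indAut_one (g : ℕ) : indAut g 1 = 1 := by
  ext x
  induction x using QuotientGroup.induction_on with
  | H x => rfl

theorem indAut_mul (g : ℕ) (φ ψ : MCGb g) : indAut g (φ * ψ) = indAut g φ * indAut g ψ := by
  ext x
  induction x using QuotientGroup.induction_on with
  | H x => rfl

theorem indAut_mem (g : ℕ) (φ : MCGb g) : indAut g φ ∈ AutPlus g := by
  intro α β
  exact formF_comp g φ.aut.toMonoidHom φ.2 (α.comp (PresentedGroup.mk _))
    (β.comp (PresentedGroup.mk _))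

/-- The homomorphism from `Γ_{g,∂}` to the orientation preserving automorphisms of `π_g`. -/
def capPlus (g : ℕ) : MCGb g →* AutP g where
  toFun φ := ⟨indAut g φ, indAut_mem g φ⟩
  map_one' := Subtype.ext (indAut_one g)
  map_mul' φ ψ := Subtype.ext (indAut_mul g φ ψ)

/-- The homomorphism `Γ_{g,∂} → Γ_g` given by glueing a disc to the boundary component. -/
def cap (g : ℕ) : MCGb g →* MCG g := (toMCG g).comp (capPlus g)

theorem extHom_inv (g : ℕ) (φ ψ : MCGb g) (h : φ * ψ = 1) (w : FreeGroup (Fin (g + 1) × Bool)) :
    extHom g φ.aut.toMonoidHom (extHom g ψ.aut.toMonoidHom w) = w := by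
  rw [extHom_comp]
  conv_rhs => rw [← extHom_id g w]
  congr 2
  apply MonoidHom.ext
  intro x
  show φ.aut (ψ.aut x) = x
  have h1 : φ.aut * ψ.aut = 1 := congrArg MCGb.aut h
  rw [← MulAut.mul_apply, h1, MulAut.one_apply]

/-- The extension of an automorphism by the identity on the letters of the last handle. -/
def extAut (g : ℕ) (φ : MCGb g) : MulAut (FreeGroup (Fin (g + 1) × Bool)) where
  toFun := extHom g φ.aut.toMonoidHom
  invFun := extHom g (φ⁻¹).aut.toMonoidHom
  left_inv := extHom_inv g _ _ (inv_mul_cancel φ)
  right_inv := extHom_inv g _ _ (mul_inv_cancel φ)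
  map_mul' := map_mul _

theorem extAut_relator (g : ℕ) (φ : MCGb g) :
    extAut g φ ∈ MulAction.stabilizer (MulAut (FreeGroup (Fin (g + 1) × Bool)))
      (relator (g + 1)) := by
  rw [MulAction.mem_stabilizer_iff]
  show extHom g φ.aut.toMonoidHom (relator (g + 1)) = relator (g + 1)
  rw [relator_succ, map_mul, extHom_inc, map_commutatorElement, extHom_last, extHom_last]
  congr 2
  exact φ.2

theorem extAut_one (g : ℕ) : extAut g 1 = 1 := by
  apply MulEquiv.ext
  intro w
  exact extHom_id g w

theorem extAut_mul (g : ℕ) (φ ψ : MCGb g) : extAut g (φ * ψ) = extAut g φ * extAut g ψ := by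
  apply MulEquiv.ext
  intro w
  exact (extHom_comp g φ.aut.toMonoidHom ψ.aut.toMonoidHom w).symm

/-- The homomorphism `Γ_{g,∂} → Γ_{g+1,∂}` given by glueing a surface of genus one with two
boundary components: the automorphisms are extended by the identity on the letters of the last
handle. -/
def stab (g : ℕ) : MCGb g →* MCGb (g + 1) where
  toFun φ := ⟨extAut g φ, extAut_relator g φ⟩
  map_one' := Subtype.ext (extAut_one g)
  map_mul' φ ψ := Subtype.ext (extAut_mul g φ ψ)

end Pool.Agent.N167.ST
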