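import Mathlib

/-!
# Surface groups: definitions
-/

set_option autoImplicit false

open scoped commutatorElement

namespace Pool.Agent.N167.ST

/-- The product of commutators `[a_0, b_0] ⋯ [a_{g-1}, b_{g-1}]` in the free group on the letters
`a_i = (i, false)`, `b_i = (i, true)`. -/
def relator (g : ℕ) : FreeGroup (Fin g × Bool) :=
  (List.ofFn fun i : Fin g => ⁅FreeGroup.of (i, false), FreeGroup.of (i, true)⁆).prod

/-- The fundamental group `π_g` of the closed oriented surface of genus `g`. -/
def SurfaceGroup (g : ℕ) : Type := PresentedGroup ({relator g} : Set (FreeGroup (Fin g × Bool)))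

instance (g : ℕ) : Group (SurfaceGroup g) :=
  instGroupPresentedGroup ({relator g} : Set (FreeGroup (Fin g × Bool)))

/-- The class of a letter in the surface group. -/
def gen (g : ℕ) (x : Fin g × Bool) : SurfaceGroup g := PresentedGroup.of x

/-- The intersection form on `H¹(Σ_g; ℤ) = Hom(π_g, ℤ)`. -/
def form (g : ℕ) (α β : SurfaceGroup g →* Multiplicative ℤ) : ℤ :=
  ∑ i : Fin g, ((α (gen g (i, false))).toAdd * (β (gen g (i, true))).toAdd -
    (α (gen g (i, true))).toAdd * (β (gen g (i, false))).toAdd)

end Pool.Agent.N167.ST
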